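import Mathlib
import Pool.Agent.H119R2.Kp.K1
import Pool.Agent.H119R2.Kp.D

set_option autoImplicit false

/-!
MP_d4e2f9_lc (AD): the fixed point criterion for a cyclic group, for functions of `n` variables.
-/

namespace Pool.Agent.TH669.AD

open Finset
open Pool.Agent.H98R2.Ev (NE)
open Pool.Agent.H119R2.Kp (Dec orbit_sum)

variable {n : ℕ}

/-- `S` is invariant under `Γ` -/
def Inv (Γ : Subgroup (Equiv.Perm (Fin n))) (S : Finset (Fin n)) : Prop :=
  ∀ g ∈ Γ, S.map g.toEmbedding = S

/-- the fixed point criterion: the boundary of a simplex is not a fixed point set -/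
def Crit (Γ : Subgroup (Equiv.Perm (Fin n))) : Prop :=
  ∀ (T : Finset (Fin n)) (D : Finset (Fin n) → Prop), T.Nonempty → Inv Γ T →
    (∀ S S', S ⊆ S' → S' ⊆ T → D S' → D S) →
    (∀ g ∈ Γ, ∀ S, S ⊆ T → D S → D (S.map g.toEmbedding)) →
    (∀ S, S ⊂ T → Inv Γ S → D S) → ¬ D T → ¬ NE T D

theorem inv_zpowers (c : Equiv.Perm (Fin n)) (S : Finset (Fin n)) (h : S.map c.toEmbedding = S) :
    Inv (Subgroup.zpowers c) S := by
  have key : ∀ x, x ∈ S ↔ c x ∈ S := by
    intro x
    constructor
    · intro hx
      rw [← h]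
      exact mem_map_of_mem _ hx
    · intro hx
      rw [← h, mem_map] at hx
      obtain ⟨y, hy, hyx⟩ := hx
      have : y = x := c.injective hyx
      rwa [← this]
  let H : Subgroup (Equiv.Perm (Fin n)) :=
    { carrier := {g | ∀ x, x ∈ S ↔ g x ∈ S}
      one_mem' := by intro x; simp
      mul_mem' := by
        intro a b ha hb x
        rw [Equiv.Perm.mul_apply, ← ha, ← hb]
      inv_mem' := by
        intro a ha x
        rw [ha (a⁻¹ x)]
        simp }
  have hle : Subgroup.zpowers c ≤ H := by
    rw [Subgroup.zpowers_le]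
    exact key
  intro g hg
  have hg' : ∀ x, x ∈ S ↔ g x ∈ S := hle hg
  ext x
  rw [mem_map]
  constructor
  · rintro ⟨y, hy, rfl⟩
    exact (hg' y).1 hy
  · intro hx
    refine ⟨g⁻¹ x, ?_, ?_⟩
    · rw [hg' (g⁻¹ x)]
      simpa using hx
    · simp

theorem crit_zpowers (c : Equiv.Perm (Fin n)) : Crit (Subgroup.zpowers c) := by
  classical
  intro T D hT hinv hdown hD hlt hTn hne
  have hc : c ∈ Subgroup.zpowers c := Subgroup.mem_zpowers c
  have hTc : T.map c.toEmbedding = T := hinv c hc
  let orb : Fin n → Finset (Fin n) := fun x => univ.filter (fun y => c.SameCycle x y)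
  have horb : ∀ x y, y ∈ orb x ↔ c.SameCycle x y := by
    intro x y
    simp [orb]
  let P : Finset (Finset (Fin n)) := T.image orb
  let e : P ≃ Fin P.card := P.equivFin
  let O : Fin P.card → Finset (Fin n) := fun j => (e.symm j).1
  have hOx : ∀ j, ∃ x ∈ T, O j = orb x := by
    intro j
    have h := (e.symm j).2
    obtain ⟨x, hx, hx'⟩ := mem_image.1 h
    exact ⟨x, hx, hx'.symm⟩
  have hxO : ∀ x ∈ T, ∃ j, O j = orb x := by
    intro x hx
    refine ⟨e ⟨orb x, mem_image_of_mem _ hx⟩, ?_⟩
    simp [O]
  -- invariant sets are closed under the cycle relation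
  have hclosed : ∀ S : Finset (Fin n), S.map c.toEmbedding = S → ∀ x ∈ S, ∀ y, c.SameCycle x y →
      y ∈ S := by
    intro S hS x hx y hxy
    obtain ⟨i, hi⟩ := hxy
    have h1 := inv_zpowers c S hS (c ^ i) (Subgroup.zpow_mem_zpowers c i)
    rw [← hi, ← h1]
    exact mem_map_of_mem _ hx
  have horbinv : ∀ x, (orb x).map c.toEmbedding = orb x := by
    intro x
    ext y
    rw [mem_map, horb]
    constructor
    · rintro ⟨z, hz, rfl⟩
      rw [horb] at hz
      exact Equiv.Perm.sameCycle_apply_right.2 hz
    · intro hy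
      refine ⟨c.symm y, ?_, by simp⟩
      rw [horb]
      exact Equiv.Perm.sameCycle_symm_apply_right.2 hy
  have hOinv : ∀ j, (O j).map c.toEmbedding = O j := by
    intro j
    obtain ⟨x, _, hx⟩ := hOx j
    rw [hx, horbinv]
  have hOT : ∀ j, O j ⊆ T := by
    intro j
    obtain ⟨x, hxT, hx⟩ := hOx j
    rw [hx]
    intro y hy
    exact hclosed T hTc x hxT y ((horb x y).1 hy)
  have hOne : ∀ j, (O j).Nonempty := by
    intro j
    obtain ⟨x, _, hx⟩ := hOx j
    exact ⟨x, by rw [hx, horb]⟩
  have hOdis : ∀ i j, i ≠ j → Disjoint (O i) (O j) := by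
    intro i j hij
    rw [disjoint_left]
    intro z hzi hzj
    obtain ⟨x, _, hx⟩ := hOx i
    obtain ⟨y, _, hy⟩ := hOx j
    rw [hx, horb] at hzi
    rw [hy, horb] at hzj
    have : O i = O j := by
      rw [hx, hy]
      ext w
      rw [horb, horb]
      constructor
      · intro h
        exact hzj.trans (hzi.symm.trans h)
      · intro h
        exact hzi.trans (hzj.symm.trans h)
    have h2 : e.symm i = e.symm j := Subtype.ext this
    exact hij (e.symm.injective h2)
  have hOU : univ.biUnion O = T := by
    ext x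
    rw [mem_biUnion]
    constructor
    · rintro ⟨j, _, hx⟩
      exact hOT j hx
    · intro hx
      obtain ⟨j, hj⟩ := hxO x hx
      exact ⟨j, mem_univ _, by rw [hj, horb]⟩
  have key := orbit_sum T D hdown hne 2 (ι := PEmpty) (fun i => i.elim) c (fun i => i.elim)
    (fun i => i.elim) (fun i => i.elim) hTc (fun i => i.elim) (fun S hS h => hD c hc S hS h)
    (fun S _ i => i.elim) O hOne hOdis hOU
    (by
      intro S hS _ hSc
      refine ⟨univ.filter (fun j => O j ⊆ S), ?_⟩
      ext x
      rw [mem_biUnion]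
      constructor
      · intro hx
        obtain ⟨j, hj⟩ := hxO x (hS hx)
        refine ⟨j, ?_, by rw [hj, horb]⟩
        rw [mem_filter]
        refine ⟨mem_univ _, ?_⟩
        rw [hj]
        intro y hy
        exact hclosed S hSc x hx y ((horb x y).1 hy)
      · rintro ⟨j, hj, hx⟩
        exact (mem_filter.1 hj).2 hx)
    (fun j i => i.elim) hOinv
  have hm : 0 < P.card := by
    rw [card_pos]
    obtain ⟨x, hx⟩ := hT
    exact ⟨orb x, mem_image_of_mem _ hx⟩
  have hval : ∀ I : Finset (Fin P.card), (if D (I.biUnion O) then (1 : ℤ) else 0) =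
      1 - (if I = univ then 1 else 0) := by
    intro I
    by_cases hI : I = univ
    · subst hI
      rw [hOU, if_neg hTn]
      simp
    · rw [if_neg hI]
      rw [if_pos]
      · simp
      apply hlt
      · rw [Finset.ssubset_iff_subset_ne]
        constructor
        · rw [← hOU]
          exact biUnion_subset_biUnion_of_subset_left _ (subset_univ I)
        · intro h
          apply hI
          rw [eq_univ_iff_forall]
          intro j
          obtain ⟨x, hx⟩ := hOne j
          have hx2 : x ∈ I.biUnion O := by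
            rw [h]
            exact hOT j hx
          obtain ⟨i, hi, hxi⟩ := mem_biUnion.1 hx2
          by_cases hij : i = j
          · rwa [← hij]
          · exact absurd hx (disjoint_left.1 (hOdis i j hij) hxi)
      · apply inv_zpowers
        ext x
        simp only [mem_map, mem_biUnion]
        constructor
        · rintro ⟨y, ⟨j, hj, hy⟩, rfl⟩
          refine ⟨j, hj, ?_⟩
          rw [← hOinv j]
          exact mem_map_of_mem _ hy
        · rintro ⟨j, hj, hx⟩
          rw [← hOinv j, mem_map] at hx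
          obtain ⟨y, hy, hyx⟩ := hx
          exact ⟨y, ⟨j, hj, hy⟩, hyx⟩
  have hsum : ∑ I : Finset (Fin P.card), (-1 : ℤ) ^ I.card = 0 := by
    have h := Finset.sum_powerset_neg_one_pow_card_of_nonempty
      (x := (univ : Finset (Fin P.card))) ⟨⟨0, hm⟩, mem_univ _⟩
    simpa using h
  have : ∑ I : Finset (Fin P.card), (-1 : ℤ) ^ I.card * (1 - (if I = univ then 1 else 0)) = 0 := by
    refine Eq.trans (sum_congr rfl fun I _ => ?_) key
    rw [hval I]
  simp only [mul_sub, mul_one, sum_sub_distrib, hsum] at this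
  simp at this

end Pool.Agent.TH669.AD
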