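import Mathlib

set_option autoImplicit false

/-!
MP_d4e2f9_lc (AD): counting the exceptional degrees.
-/

namespace Pool.Agent.TH669.AD

open Finset Real

open Classical in
/-- multiples of a square of a large prime -/
theorem count1 (x y : ℕ) (hy : 0 < y) :
    (((Ioc 0 x).filter (fun n => ∃ p : ℕ, p.Prime ∧ y < p ∧ p ^ 2 ∣ n)).card : ℝ) ≤ x / y := by
  classical
  have hsub : (Ioc 0 x).filter (fun n => ∃ p : ℕ, p.Prime ∧ y < p ∧ p ^ 2 ∣ n) ⊆
      (Ioc y x).biUnion (fun p => (Ioc 0 x).filter (fun n => p ^ 2 ∣ n)) := by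
    intro n hn
    rw [mem_filter] at hn
    obtain ⟨hn1, p, hp, hyp, hpn⟩ := hn
    rw [mem_Ioc] at hn1
    rw [mem_biUnion]
    refine ⟨p, ?_, ?_⟩
    · rw [mem_Ioc]
      refine ⟨hyp, ?_⟩
      have h1 := Nat.le_of_dvd hn1.1 hpn
      nlinarith [hp.one_lt]
    · rw [mem_filter, mem_Ioc]
      exact ⟨hn1, hpn⟩
  have h1 : (((Ioc 0 x).filter (fun n => ∃ p : ℕ, p.Prime ∧ y < p ∧ p ^ 2 ∣ n)).card : ℝ) ≤
      ∑ p ∈ Ioc y x, (x : ℝ) * ((p : ℝ) ^ 2)⁻¹ := by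
    calc (((Ioc 0 x).filter (fun n => ∃ p : ℕ, p.Prime ∧ y < p ∧ p ^ 2 ∣ n)).card : ℝ)
        ≤ (((Ioc y x).biUnion (fun p => (Ioc 0 x).filter (fun n => p ^ 2 ∣ n))).card : ℝ) := by
          exact_mod_cast card_le_card hsub
      _ ≤ ((∑ p ∈ Ioc y x, ((Ioc 0 x).filter (fun n => p ^ 2 ∣ n)).card : ℕ) : ℝ) := by
          exact_mod_cast card_biUnion_le
      _ ≤ _ := by
          rw [Nat.cast_sum]
          refine sum_le_sum fun p _ => ?_
          rw [Nat.Ioc_filter_dvd_card_eq_div]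
          refine Nat.cast_div_le.trans ?_
          rw [div_eq_mul_inv]
          push_cast
          exact le_rfl
  refine h1.trans ?_
  rw [← mul_sum]
  rcases le_or_gt y x with h | h
  · have h2 := sum_Ioc_inv_sq_le_sub (α := ℝ) hy.ne' h
    have h3 : (0 : ℝ) ≤ ((x : ℝ))⁻¹ := by positivity
    calc (x : ℝ) * ∑ p ∈ Ioc y x, ((p : ℝ) ^ 2)⁻¹ ≤ x * (y : ℝ)⁻¹ :=
          mul_le_mul_of_nonneg_left (by linarith) (Nat.cast_nonneg x)
      _ = x / y := by rw [div_eq_mul_inv]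
  · rw [Ioc_eq_empty (by omega)]
    simp
    positivity

theorem sum_sq (x y : ℕ) (hy : 0 < y) : ∑ p ∈ Ioc y x, ((p : ℝ) ^ 2)⁻¹ ≤ (y : ℝ)⁻¹ := by
  rcases le_or_gt y x with h | h
  · have h2 := sum_Ioc_inv_sq_le_sub (α := ℝ) hy.ne' h
    have h3 : (0 : ℝ) ≤ ((x : ℝ))⁻¹ := by positivity
    linarith
  · rw [Ioc_eq_empty (by omega)]
    simp

open Classical in
/-- congruences between divisors -/
theorem count2 (x y S : ℕ) (hy : 0 < y) (hS : 0 < S) :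
    (((Ioc 0 x).filter (fun n => ∃ p d₁ d₂ : ℕ, p.Prime ∧ y < p ∧ p * d₁ ∣ n ∧ 1 ≤ d₂ ∧ d₂ ≤ S ∧
      d₁ * d₂ ≡ 1 [MOD p] ∧ d₁ * d₂ ≠ 1)).card : ℝ) ≤
      x * (S : ℝ) ^ 2 * (1 + log (x * S)) / y := by
  classical
  have hsub : (Ioc 0 x).filter (fun n => ∃ p d₁ d₂ : ℕ, p.Prime ∧ y < p ∧ p * d₁ ∣ n ∧ 1 ≤ d₂ ∧
      d₂ ≤ S ∧ d₁ * d₂ ≡ 1 [MOD p] ∧ d₁ * d₂ ≠ 1) ⊆
      (Ioc y x).biUnion (fun p => (Icc 1 S).biUnion (fun d => (Icc 1 (x * S)).biUnion (fun j =>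
        (Ioc 0 x).filter (fun n => d ∣ 1 + j * p ∧ p * ((1 + j * p) / d) ∣ n)))) := by
    intro n hn
    rw [mem_filter] at hn
    obtain ⟨hn1, p, d₁, d₂, hp, hyp, hdn, h1, h2, h3, h4⟩ := hn
    rw [mem_Ioc] at hn1
    have hle := Nat.le_of_dvd hn1.1 hdn
    have hd1 : 0 < d₁ := by
      rcases Nat.eq_zero_or_pos d₁ with h | h
      · rw [h] at hdn
        simp at hdn
        omega
      · exact h
    have hpx : p ≤ x := by nlinarith
    have hd1x : p * d₁ ≤ x := hle.trans hn1.2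
    -- the quotient
    have hmod : d₁ * d₂ % p = 1 := by
      have h5 : d₁ * d₂ % p = 1 % p := h3
      rw [h5]
      exact Nat.mod_eq_of_lt hp.one_lt
    have hdecomp : 1 + (d₁ * d₂ / p) * p = d₁ * d₂ := by
      have := Nat.mod_add_div (d₁ * d₂) p
      rw [hmod] at this
      rw [mul_comm (d₁ * d₂ / p) p]
      exact this
    rw [mem_biUnion]
    refine ⟨p, mem_Ioc.2 ⟨hyp, hpx⟩, ?_⟩
    rw [mem_biUnion]
    refine ⟨d₂, mem_Icc.2 ⟨h1, h2⟩, ?_⟩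
    rw [mem_biUnion]
    refine ⟨d₁ * d₂ / p, ?_, ?_⟩
    · rw [mem_Icc]
      constructor
      · by_contra hlt
        have h5 : d₁ * d₂ / p = 0 := Nat.lt_one_iff.1 (not_le.1 hlt)
        rw [h5] at hdecomp
        omega
      · calc d₁ * d₂ / p ≤ d₁ * d₂ := Nat.div_le_self _ _
          _ ≤ x * S := by
            refine Nat.mul_le_mul ?_ h2
            calc d₁ = 1 * d₁ := by ring
              _ ≤ p * d₁ := Nat.mul_le_mul_right _ hp.one_lt.le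
              _ ≤ x := hd1x
    · rw [mem_filter, mem_Ioc, hdecomp]
      refine ⟨hn1, Dvd.intro_left d₁ rfl, ?_⟩
      rw [Nat.mul_div_cancel _ (by omega)]
      exact hdn
  have hterm : ∀ p ∈ Ioc y x, ∀ d ∈ Icc 1 S, ∀ j ∈ Icc 1 (x * S),
      (((Ioc 0 x).filter (fun n => d ∣ 1 + j * p ∧ p * ((1 + j * p) / d) ∣ n)).card : ℝ) ≤
        x * S * ((p : ℝ) ^ 2)⁻¹ * (j : ℝ)⁻¹ := by
    intro p hp d hd j hj
    rw [mem_Ioc] at hp
    rw [mem_Icc] at hd hj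
    have hp0 : (0 : ℝ) < p := by
      have : 0 < p := by omega
      exact_mod_cast this
    have hj0 : (0 : ℝ) < j := by
      have : 0 < j := by omega
      exact_mod_cast this
    have hd0 : (0 : ℝ) < d := by
      have : 0 < d := by omega
      exact_mod_cast this
    by_cases hdv : d ∣ 1 + j * p
    · have h1 : ((Ioc 0 x).filter (fun n => d ∣ 1 + j * p ∧ p * ((1 + j * p) / d) ∣ n)).card =
          x / (p * ((1 + j * p) / d)) := by
        rw [← Nat.Ioc_filter_dvd_card_eq_div x (p * ((1 + j * p) / d))]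
        refine congrArg card (filter_congr fun n _ => ?_)
        simp [hdv]
      rw [h1]
      refine Nat.cast_div_le.trans ?_
      rw [Nat.cast_mul, Nat.cast_div hdv hd0.ne']
      push_cast
      have h2 : (x : ℝ) / (p * ((1 + j * p) / d)) = x * d / (p * (1 + j * p)) := by
        field_simp
      rw [h2]
      have h3 : (x : ℝ) * S * ((p : ℝ) ^ 2)⁻¹ * (j : ℝ)⁻¹ = x * S / (p * (j * p)) := by
        field_simp
      rw [h3]
      have hdS : (d : ℝ) ≤ S := by exact_mod_cast hd.2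
      gcongr
      linarith
    · have h1 : ((Ioc 0 x).filter (fun n => d ∣ 1 + j * p ∧ p * ((1 + j * p) / d) ∣ n)) = ∅ := by
        rw [filter_eq_empty_iff]
        intro n _ h
        exact hdv h.1
      rw [h1]
      simp
      positivity
  have hharm : ∑ j ∈ Icc 1 (x * S), (j : ℝ)⁻¹ ≤ 1 + log (x * S) := by
    have h := harmonic_le_one_add_log (x * S)
    rw [harmonic_eq_sum_Icc] at h
    push_cast at h
    exact h
  calc (((Ioc 0 x).filter (fun n => ∃ p d₁ d₂ : ℕ, p.Prime ∧ y < p ∧ p * d₁ ∣ n ∧ 1 ≤ d₂ ∧ d₂ ≤ S ∧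
      d₁ * d₂ ≡ 1 [MOD p] ∧ d₁ * d₂ ≠ 1)).card : ℝ)
      ≤ ((∑ p ∈ Ioc y x, ∑ d ∈ Icc 1 S, ∑ j ∈ Icc 1 (x * S),
        ((Ioc 0 x).filter (fun n => d ∣ 1 + j * p ∧ p * ((1 + j * p) / d) ∣ n)).card : ℕ) : ℝ) := by
        refine Nat.cast_le.2 ((card_le_card hsub).trans (card_biUnion_le.trans ?_))
        refine sum_le_sum fun p _ => card_biUnion_le.trans ?_
        exact sum_le_sum fun d _ => card_biUnion_le
    _ ≤ ∑ p ∈ Ioc y x, ∑ d ∈ Icc 1 S, ∑ j ∈ Icc 1 (x * S),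
        x * S * ((p : ℝ) ^ 2)⁻¹ * (j : ℝ)⁻¹ := by
        push_cast
        exact sum_le_sum fun p hp => sum_le_sum fun d hd => sum_le_sum fun j hj => by
          have := hterm p hp d hd j hj
          push_cast at this
          exact this
    _ = (∑ p ∈ Ioc y x, ((p : ℝ) ^ 2)⁻¹) * (x * (S : ℝ) ^ 2) * ∑ j ∈ Icc 1 (x * S), (j : ℝ)⁻¹ := by
        have e1 : ∀ p ∈ Ioc y x, (∑ _d ∈ Icc 1 S, ∑ j ∈ Icc 1 (x * S),
            (x : ℝ) * S * ((p : ℝ) ^ 2)⁻¹ * (j : ℝ)⁻¹) =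
            ((p : ℝ) ^ 2)⁻¹ * (x * (S : ℝ) ^ 2 * ∑ j ∈ Icc 1 (x * S), (j : ℝ)⁻¹) := by
          intro p _
          rw [sum_const, Nat.card_Icc, nsmul_eq_mul, ← mul_sum, Nat.add_sub_cancel]
          ring
        rw [sum_congr rfl e1, ← sum_mul]
        ring
    _ ≤ (y : ℝ)⁻¹ * (x * (S : ℝ) ^ 2) * (1 + log (x * S)) := by
        have h1 := sum_sq x y hy
        gcongr
    _ = x * (S : ℝ) ^ 2 * (1 + log (x * S)) / y := by
        rw [div_eq_mul_inv]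
        ring

end Pool.Agent.TH669.AD
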