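import Pool.Agent.TH669.AD.Smooth
import Pool.Agent.TH669.AD.Count

set_option autoImplicit false

/-!
MP_d4e2f9_lc (AD): almost all degrees are good.
-/

namespace Pool.Agent.TH669.AD

open Finset Real

/-- few degrees are not good -/
theorem few_bad (x y s : ℕ) (U : ℝ) (hy : 1 ≤ y) (hs : 0 < s) (hU : 1 < U) :
    ({n : ℕ | 1 ≤ n ∧ n ≤ x ∧ ¬ GoodDeg y s U n}.ncard : ℝ) ≤
      x / y + x * (s : ℝ) ^ 2 * (1 + log (x * s)) / y + 2 * x * (log y + log 4) / log U := by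
  classical
  set B1 := (Ioc 0 x).filter (fun n => ∃ p : ℕ, p.Prime ∧ y < p ∧ p ^ 2 ∣ n) with hB1
  set B2 := (Ioc 0 x).filter (fun n => ∃ p d₁ d₂ : ℕ, p.Prime ∧ y < p ∧ p * d₁ ∣ n ∧ 1 ≤ d₂ ∧
      d₂ ≤ s ∧ d₁ * d₂ ≡ 1 [MOD p] ∧ d₁ * d₂ ≠ 1) with hB2
  set B3 := (Ioc 0 x).filter (fun n => (∀ p : ℕ, p.Prime → y < p → ¬ p ^ 2 ∣ n) ∧
      U * ((∏ p ∈ big y n, p : ℕ) : ℝ) < n) with hB3
  have hsub : {n : ℕ | 1 ≤ n ∧ n ≤ x ∧ ¬ GoodDeg y s U n} ⊆ ((B1 ∪ B2 ∪ B3 : Finset ℕ) : Set ℕ) := by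
    rintro n ⟨h1, h2, h3⟩
    have hn : n ∈ Ioc 0 x := mem_Ioc.2 ⟨h1, h2⟩
    rw [mem_coe, mem_union, mem_union]
    by_cases hsq : ∀ p : ℕ, p.Prime → y < p → ¬ p ^ 2 ∣ n
    · by_cases hc : ∀ p : ℕ, p.Prime → y < p → ∀ d₁ d₂, p * d₁ ∣ n → 1 ≤ d₂ → d₂ ≤ s →
          d₁ * d₂ ≡ 1 [MOD p] → d₁ * d₂ = 1
      · right
        rw [hB3, mem_filter]
        refine ⟨hn, hsq, ?_⟩
        by_contra hlt
        exact h3 ⟨hsq, hc, not_lt.1 hlt⟩
      · left
        right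
        push Not at hc
        obtain ⟨p, hp, hyp, d₁, d₂, a1, a2, a3, a4, a5⟩ := hc
        rw [hB2, mem_filter]
        exact ⟨hn, p, d₁, d₂, hp, hyp, a1, a2, a3, a4, a5⟩
    · left
      left
      push Not at hsq
      obtain ⟨p, hp, hyp, a1⟩ := hsq
      rw [hB1, mem_filter]
      exact ⟨hn, p, hp, hyp, a1⟩
  have h1 : {n : ℕ | 1 ≤ n ∧ n ≤ x ∧ ¬ GoodDeg y s U n}.ncard ≤ B1.card + B2.card + B3.card := by
    calc {n : ℕ | 1 ≤ n ∧ n ≤ x ∧ ¬ GoodDeg y s U n}.ncard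
        ≤ ((B1 ∪ B2 ∪ B3 : Finset ℕ) : Set ℕ).ncard := Set.ncard_le_ncard hsub (finite_toSet _)
      _ = (B1 ∪ B2 ∪ B3).card := Set.ncard_coe_finset _
      _ ≤ (B1 ∪ B2).card + B3.card := card_union_le _ _
      _ ≤ _ := by
        have := card_union_le B1 B2
        omega
  have h2 : (B1.card : ℝ) ≤ x / y := by
    convert count1 x y (by omega)
  have h3 : (B2.card : ℝ) ≤ x * (s : ℝ) ^ 2 * (1 + log (x * s)) / y := by
    convert count2 x y s (by omega) hs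
  have h4 : (B3.card : ℝ) ≤ 2 * x * (log y + log 4) / log U := by
    rw [le_div_iff₀ (log_pos hU)]
    convert count3 x y hy U hU
  calc ({n : ℕ | 1 ≤ n ∧ n ≤ x ∧ ¬ GoodDeg y s U n}.ncard : ℝ)
      ≤ ((B1.card + B2.card + B3.card : ℕ) : ℝ) := by exact_mod_cast h1
    _ = (B1.card : ℝ) + B2.card + B3.card := by push_cast; ring
    _ ≤ _ := by linarith

theorem aux12 (s ℓ t : ℝ) (hs1 : 1 ≤ s) (hℓ2 : 2 < ℓ) (ht : 1 + t ≤ ℓ + s) :
    1 + s ^ 2 * (1 + t) ≤ (s * ℓ) ^ 3 := by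
  have h1 : s ^ 2 * (1 + t) ≤ s ^ 2 * (ℓ + s) := mul_le_mul_of_nonneg_left ht (by positivity)
  have h2 : s ^ 2 ≤ s ^ 3 := pow_le_pow_right₀ hs1 (by norm_num)
  have h3 : 1 ≤ s ^ 3 := one_le_pow₀ hs1
  have h4 : 4 * ℓ ≤ ℓ ^ 3 := by
    have : 4 ≤ ℓ ^ 2 := by nlinarith
    nlinarith
  have h5 : (s * ℓ) ^ 3 = s ^ 3 * ℓ ^ 3 := by ring
  have h6 : s ^ 3 * (4 * ℓ) ≤ (s * ℓ) ^ 3 := by
    rw [h5]
    exact mul_le_mul_of_nonneg_left h4 (by positivity)
  have h7 : s ^ 2 * ℓ ≤ s ^ 3 * ℓ := mul_le_mul_of_nonneg_right h2 (by linarith)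
  have h8 : s ^ 3 * 2 ≤ s ^ 3 * ℓ := mul_le_mul_of_nonneg_left hℓ2.le (by positivity)
  have h9 : s ^ 2 * (ℓ + s) = s ^ 2 * ℓ + s ^ 3 := by ring
  have h10 : s ^ 3 * (4 * ℓ) = 4 * (s ^ 3 * ℓ) := by ring
  linarith

theorem few_bad' (η : ℝ) (hη : 0 < η) : ∃ K : ℕ, ∀ x s : ℕ, 8 ≤ x → 1 ≤ s → ∃ y : ℕ, s ≤ y ∧
    ({n : ℕ | 1 ≤ n ∧ n ≤ x ∧ ¬ GoodDeg y s (((s : ℝ) * log x) ^ (2 * K)) n}.ncard : ℝ) ≤ η * x := by
  set η' : ℝ := min η 1 with hη'
  have hη'0 : 0 < η' := lt_min hη one_pos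
  have hη'1 : η' ≤ 1 := min_le_right _ _
  have hη'η : η' ≤ η := min_le_left _ _
  have hlog2 : 0 < log 2 := log_pos (by norm_num)
  have hl12 : 0 < log (12 / η') := by
    apply log_pos
    rw [lt_div_iff₀ hη'0]
    linarith
  set c : ℝ := 3 + log (12 / η') / log 2 with hc
  have hc0 : 0 < c := by
    have := div_pos hl12 hlog2
    linarith
  set K : ℕ := ⌈2 * c / η'⌉₊ with hK
  have hKle : 2 * c / η' ≤ K := Nat.le_ceil _
  have hK0 : (0 : ℝ) < K := lt_of_lt_of_le (by positivity) hKle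
  have hK1 : 1 ≤ K := by
    have : 0 < K := by exact_mod_cast hK0
    omega
  refine ⟨K, fun x s hx hs => ?_⟩
  have hx0 : (0 : ℝ) < x := by
    have : 0 < x := by omega
    exact_mod_cast this
  have hs1 : (1 : ℝ) ≤ s := by exact_mod_cast hs
  set ℓ : ℝ := log x with hℓ
  have hℓ2 : 2 < ℓ := by
    have h1 : log 8 ≤ log x := log_le_log (by norm_num) (by exact_mod_cast hx)
    have h2 : log 8 = 3 * log 2 := by
      rw [show (8 : ℝ) = 2 ^ 3 by norm_num, log_pow]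
      norm_num
    have h3 := Real.log_two_gt_d9
    linarith
  set L : ℝ := (s : ℝ) * ℓ with hL
  have hL2 : 2 < L := by nlinarith
  have hsL : (s : ℝ) ≤ L := by nlinarith
  have hL3 : L ≤ L ^ 3 := by
    have : 1 ≤ L ^ 2 := by nlinarith
    nlinarith
  have hL38 : 8 ≤ L ^ 3 := by
    have : 4 ≤ L ^ 2 := by nlinarith
    nlinarith
  set y : ℕ := ⌈2 * L ^ 3 / η'⌉₊ with hy
  have hyle : 2 * L ^ 3 / η' ≤ y := Nat.le_ceil _
  have hylt : (y : ℝ) < 2 * L ^ 3 / η' + 1 := Nat.ceil_lt_add_one (by positivity)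
  have hy2 : 2 * L ^ 3 ≤ y := by
    refine le_trans ?_ hyle
    rw [le_div_iff₀ hη'0]
    nlinarith
  have hy0 : (0 : ℝ) < y := by linarith
  have hyub : (y : ℝ) ≤ 3 * L ^ 3 / η' := by
    have h1 : 1 ≤ L ^ 3 / η' := by
      rw [le_div_iff₀ hη'0]
      linarith
    have h2 : 3 * L ^ 3 / η' = 2 * L ^ 3 / η' + L ^ 3 / η' := by ring
    linarith
  have hsy : s ≤ y := by
    have : (s : ℝ) ≤ y := by linarith
    exact_mod_cast this
  refine ⟨y, hsy, ?_⟩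
  have hlogL : log 2 ≤ log L := log_le_log (by norm_num) hL2.le
  have hlogL0 : 0 < log L := lt_of_lt_of_le hlog2 hlogL
  have hU : 1 < L ^ (2 * K) := one_lt_pow₀ (by linarith) (by omega)
  have hlogU : log (L ^ (2 * K)) = 2 * K * log L := by
    rw [log_pow]
    push_cast
    ring
  have hmain := few_bad x y s (L ^ (2 * K)) (by omega) (by omega) hU
  refine hmain.trans ?_
  rw [hlogU]
  -- the first two terms
  have hlogxs : 1 + log (x * s) ≤ ℓ + s := by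
    rw [log_mul hx0.ne' (by linarith)]
    have := log_le_sub_one_of_pos (show (0 : ℝ) < s by linarith)
    linarith
  have h12 : 1 + (s : ℝ) ^ 2 * (1 + log (x * s)) ≤ L ^ 3 :=
    aux12 s ℓ (log (x * s)) hs1 hℓ2 hlogxs
  have hA : (x : ℝ) / y + x * (s : ℝ) ^ 2 * (1 + log (x * s)) / y ≤ η' / 2 * x := by
    have h1 : (x : ℝ) / y + x * (s : ℝ) ^ 2 * (1 + log (x * s)) / y =
        x * (1 + (s : ℝ) ^ 2 * (1 + log (x * s))) / y := by ring
    rw [h1, div_le_iff₀ hy0]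
    have h2 : L ^ 3 ≤ η' / 2 * y := by
      rw [div_le_iff₀ hη'0] at hyle
      linarith
    calc (x : ℝ) * (1 + (s : ℝ) ^ 2 * (1 + log (x * s))) ≤ x * L ^ 3 :=
          mul_le_mul_of_nonneg_left h12 hx0.le
      _ ≤ x * (η' / 2 * y) := mul_le_mul_of_nonneg_left h2 hx0.le
      _ = η' / 2 * x * y := by ring
  -- the third term
  have hlogy : log y + log 4 ≤ c * log L := by
    have h1 : log y + log 4 ≤ log (12 / η') + 3 * log L := by
      have h2 : log y + log 4 = log (y * 4) := (log_mul hy0.ne' (by norm_num)).symm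
      have h3 : log (12 / η') + 3 * log L = log (12 / η' * L ^ 3) := by
        rw [log_mul (x := 12 / η') (y := L ^ 3) (by positivity) (by positivity), log_pow]
        push_cast
        ring
      rw [h2, h3]
      apply log_le_log (by positivity)
      have h4 : 12 / η' * L ^ 3 = 3 * L ^ 3 / η' * 4 := by ring
      rw [h4]
      linarith
    have h2 : log (12 / η') ≤ log (12 / η') / log 2 * log L := by
      rw [div_mul_eq_mul_div, le_div_iff₀ hlog2]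
      exact mul_le_mul_of_nonneg_left hlogL hl12.le
    calc log y + log 4 ≤ log (12 / η') + 3 * log L := h1
      _ ≤ log (12 / η') / log 2 * log L + 3 * log L := by linarith
      _ = c * log L := by rw [hc]; ring
  have hB : 2 * x * (log y + log 4) / (2 * K * log L) ≤ η' / 2 * x := by
    rw [div_le_iff₀ (by positivity)]
    have h1 : 2 * c ≤ K * η' := by
      rw [div_le_iff₀ hη'0] at hKle
      linarith
    calc 2 * x * (log y + log 4) ≤ 2 * x * (c * log L) :=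
          mul_le_mul_of_nonneg_left hlogy (by positivity)
      _ = x * log L * (2 * c) := by ring
      _ ≤ x * log L * (K * η') := mul_le_mul_of_nonneg_left h1 (by positivity)
      _ = η' / 2 * x * (2 * K * log L) := by ring
  calc (x : ℝ) / y + x * (s : ℝ) ^ 2 * (1 + log (x * s)) / y +
        2 * x * (log y + log 4) / (2 * K * log L) ≤ η' / 2 * x + η' / 2 * x := add_le_add hA hB
    _ = η' * x := by ring
    _ ≤ η * x := mul_le_mul_of_nonneg_right hη'η hx0.le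

end Pool.Agent.TH669.AD
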