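import Pool.Agent.TH669.AD.Fin

set_option autoImplicit false

/-!
MP_558026_co, MP_97687e_co (AD): if `m` is good, then each group `A` of order at most `S m`, acting
such that all orbits have `m` points, has a cyclic subgroup of order at least `m / U` which acts
freely.
-/

namespace Pool.Agent.TH669.AD

open Finset

theorem exists_free {y S m : ℕ} {U : ℝ} (hSy : S ≤ y) (hg : GoodDeg y S U m) (hm : 0 < m)
    (A V : Type) [Group A] [Finite A] [MulAction A V] [Nonempty V]
    (horb : ∀ v : V, (MulAction.orbit A v).ncard = m) (hA : Nat.card A ≤ S * m) :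
    ∃ c : A, (∀ a ∈ Subgroup.zpowers c, ∀ v : V, a • v = v → a = 1) ∧
      (m : ℝ) ≤ U * (Nat.card (Subgroup.zpowers c) : ℝ) := by
  classical
  have hindex : ∀ v : V, (MulAction.stabilizer A v).index = m := by
    intro v
    rw [MulAction.index_stabilizer]
    exact horb v
  have hcardA : ∀ v : V, Nat.card (MulAction.stabilizer A v) * m = Nat.card A := by
    intro v
    rw [← hindex v]
    exact Subgroup.card_mul_index _
  obtain ⟨v₀⟩ := ‹Nonempty V›
  set s := Nat.card (MulAction.stabilizer A v₀) with hs0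
  have hs : Nat.card A = m * s := by rw [← hcardA v₀, mul_comm]
  have hspos : 0 < s := Nat.card_pos
  have hsS : s ≤ S := by
    have h1 : m * s ≤ m * S := by rw [← hs, mul_comm m S]; exact hA
    exact Nat.le_of_mul_le_mul_left h1 hm
  have hstab : ∀ v : V, Nat.card (MulAction.stabilizer A v) = s := by
    intro v
    have h1 := hcardA v
    rw [hs, mul_comm m s] at h1
    exact Nat.eq_of_mul_eq_mul_right hm h1
  -- the generators
  have hNC : ∀ p ∈ big y m, ∃ g, NC (⊤ : Subgroup A) p g := by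
    intro p hp
    obtain ⟨hp1, hyp⟩ := mem_filter.1 hp
    have hpp : p.Prime := Nat.prime_of_mem_primeFactors hp1
    obtain ⟨n', hn'⟩ := Nat.dvd_of_mem_primeFactors hp1
    refine NC.of_sylow (⊤ : Subgroup A) p hpp (n' * s) ?_ ?_ ?_
    · rw [Nat.card_congr (Subgroup.topEquiv (G := A)).toEquiv, hs, ← mul_assoc, ← hn']
    · intro hdvd
      rcases (Nat.Prime.dvd_mul hpp).1 hdvd with h | h
      · apply hg.sqf p hpp hyp
        obtain ⟨q, hq⟩ := h
        exact ⟨q, by rw [hn', hq]; ring⟩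
      · have := Nat.le_of_dvd hspos h
        omega
    · intro d hd hd1
      obtain ⟨d₁, d₂, h1, h2, h3⟩ := (Nat.dvd_mul).1 hd
      rw [← h3] at hd1 ⊢
      refine hg.cong p hpp hyp d₁ d₂ ?_ ?_ ?_ hd1
      · rw [hn']
        exact Nat.mul_dvd_mul_left p h1
      · exact Nat.pos_of_dvd_of_pos h2 hspos
      · exact (Nat.le_of_dvd hspos h2).trans hsS
  obtain ⟨c, hc, -⟩ := NC.exists_prod (big y m)
    (fun p hp => Nat.prime_of_mem_primeFactors (mem_filter.1 hp).1) hNC
  refine ⟨c, ?_, ?_⟩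
  · intro a ha v hav
    have h1 : orderOf a ∣ ∏ p ∈ big y m, p := by
      rw [← hc.2.1]
      exact orderOf_dvd_of_mem_zpowers ha
    have h2 : orderOf a ∣ s := by
      rw [← hstab v]
      have h3 : a ∈ MulAction.stabilizer A v := hav
      exact Subgroup.orderOf_dvd_natCard _ h3
    have h3 : Nat.Coprime (∏ p ∈ big y m, p) s := by
      rw [Nat.coprime_prod_left_iff]
      intro p hp
      obtain ⟨hp1, hyp⟩ := mem_filter.1 hp
      have hpp : p.Prime := Nat.prime_of_mem_primeFactors hp1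
      rw [Nat.Prime.coprime_iff_not_dvd hpp]
      intro h
      have := Nat.le_of_dvd hspos h
      omega
    have h4 : orderOf a ∣ 1 := by
      rw [← h3]
      exact Nat.dvd_gcd h1 h2
    rw [Nat.dvd_one, orderOf_eq_one_iff] at h4
    exact h4
  · rw [Nat.card_zpowers, hc.2.1]
    exact hg.smooth

theorem GoodDeg.mono {y S m : ℕ} {U U' : ℝ} (h : GoodDeg y S U m) (hU : U ≤ U') :
    GoodDeg y S U' m :=
  ⟨h.sqf, h.cong, h.smooth.trans (mul_le_mul_of_nonneg_right hU (Nat.cast_nonneg _))⟩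

theorem few_bad_pow (η : ℝ) (hη : 0 < η) : ∃ K : ℕ, ∀ x s : ℕ, 8 ≤ x → 1 ≤ s →
    ∃ y : ℕ, s ≤ y ∧ 2 ≤ ((s : ℝ) * Real.log x) ^ K ∧
    ({m : ℕ | 1 ≤ m ∧ m ≤ x ∧ ¬ GoodDeg y s (((s : ℝ) * Real.log x) ^ K) m}.ncard : ℝ) ≤
      η * x := by
  obtain ⟨K, hK⟩ := few_bad' η hη
  refine ⟨2 * K + 1, fun x s hx hs => ?_⟩
  obtain ⟨y, hsy, hy⟩ := hK x s hx hs
  have hL : (2 : ℝ) ≤ (s : ℝ) * Real.log x := by
    have h1 : Real.log 8 ≤ Real.log x := Real.log_le_log (by norm_num) (by exact_mod_cast hx)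
    have h2 : Real.log 8 = 3 * Real.log 2 := by
      rw [show (8 : ℝ) = 2 ^ 3 by norm_num, Real.log_pow]
      norm_num
    have h3 := Real.log_two_gt_d9
    have h4 : (1 : ℝ) ≤ s := by exact_mod_cast hs
    nlinarith
  have hmono : ((s : ℝ) * Real.log x) ^ (2 * K) ≤ ((s : ℝ) * Real.log x) ^ (2 * K + 1) :=
    pow_le_pow_right₀ (by linarith) (by omega)
  refine ⟨y, hsy, ?_, ?_⟩
  · calc (2 : ℝ) ≤ (s : ℝ) * Real.log x := hL
      _ = ((s : ℝ) * Real.log x) ^ 1 := (pow_one _).symm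
      _ ≤ _ := pow_le_pow_right₀ (by linarith) (by omega)
  · refine le_trans ?_ hy
    have hfin : {n : ℕ | 1 ≤ n ∧ n ≤ x ∧
        ¬ GoodDeg y s (((s : ℝ) * Real.log x) ^ (2 * K)) n}.Finite :=
      (Set.finite_Icc 1 x).subset fun n hn => ⟨hn.1, hn.2.1⟩
    refine Nat.cast_le.2 (Set.ncard_le_ncard ?_ hfin)
    rintro m ⟨h1, h2, h3⟩
    exact ⟨h1, h2, fun hg => h3 (hg.mono hmono)⟩

end Pool.Agent.TH669.AD
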