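import Pool.Agent.TH669.AD.Free
import Pool.Agent.H268R2.LB.Final

set_option autoImplicit false

/-!
MP_558026_co, MP_97687e_co (AD): large girth and groups of good orders.
-/

namespace Pool.Agent.TH669.AD

open Finset

theorem pow_four_le (R : ℕ) : R ^ 4 ≤ 32 * 2 ^ R := by
  induction R with
  | zero => norm_num
  | succ R ih =>
    rcases Nat.lt_or_ge R 6 with h | h
    · interval_cases R <;> norm_num
    · have h1 : (R + 1) ^ 4 ≤ 2 * R ^ 4 := by
        obtain ⟨k, rfl⟩ := Nat.exists_eq_add_of_le h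
        ring_nf
        nlinarith [Nat.zero_le (k ^ 4), Nat.zero_le (k ^ 3), Nat.zero_le (k ^ 2), Nat.zero_le k]
      calc (R + 1) ^ 4 ≤ 2 * R ^ 4 := h1
        _ ≤ 2 * (32 * 2 ^ R) := Nat.mul_le_mul_left _ ih
        _ = 32 * 2 ^ (R + 1) := by ring

theorem size_le (R : ℕ) (hR : 1 ≤ R) : 4 ^ Nat.size R ≤ 4 * R ^ 2 := by
  have h1 : 2 ^ (Nat.size R - 1) ≤ R := by
    have h0 : 1 ≤ Nat.size R := Nat.size_pos.2 hR
    have h2 : Nat.size R - 1 < Nat.size R := by omega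
    exact Nat.lt_size.1 h2
  have h0 : 1 ≤ Nat.size R := Nat.size_pos.2 hR
  obtain ⟨q, hq⟩ := Nat.exists_eq_add_of_le h0
  rw [hq] at h1 ⊢
  have h3 : 1 + q - 1 = q := by omega
  rw [h3] at h1
  calc 4 ^ (1 + q) = 4 * (2 ^ q) ^ 2 := by
        rw [show (4 : ℕ) = 2 ^ 2 by norm_num, ← pow_mul, ← pow_mul, ← pow_add]
        ring_nf
    _ ≤ 4 * R ^ 2 := Nat.mul_le_mul_left _ (Nat.pow_le_pow_left h1 2)

theorem girth_log {g : ℕ} {T : ℝ} (hT : 2 ≤ T)
    (h : (2 : ℝ) ^ ((g - 1) / 6) ≤ T * 4 ^ (Nat.size ((g - 1) / 6))) :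
    (g : ℝ) ≤ 104 * Real.log T := by
  set R := (g - 1) / 6 with hR
  have hgR : g ≤ 6 * R + 6 := by omega
  have hgR' : (g : ℝ) ≤ 6 * R + 6 := by exact_mod_cast hgR
  have hl2 := Real.log_two_gt_d9
  have hl2' := Real.log_two_lt_d9
  have hT0 : 0 < T := by linarith
  have hlT : Real.log 2 ≤ Real.log T := Real.log_le_log (by norm_num) hT
  rcases Nat.eq_zero_or_pos R with h0 | hpos
  · rw [h0] at hgR'
    simp only [Nat.cast_zero, mul_zero, zero_add] at hgR'
    nlinarith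
  · have h1 : ((4 ^ Nat.size R : ℕ) : ℝ) ≤ ((4 * R ^ 2 : ℕ) : ℝ) := by
      exact_mod_cast size_le R hpos
    push_cast at h1
    have h2 : (2 : ℝ) ^ R ≤ T * (4 * (R : ℝ) ^ 2) :=
      h.trans (mul_le_mul_of_nonneg_left h1 hT0.le)
    have h3 : ((R : ℝ)) ^ 4 ≤ 32 * 2 ^ R := by exact_mod_cast pow_four_le R
    have h4 : (2 : ℝ) ^ R * 2 ^ R ≤ 512 * T ^ 2 * 2 ^ R := by
      have hp : (0 : ℝ) < 2 ^ R := by positivity
      calc (2 : ℝ) ^ R * 2 ^ R ≤ (T * (4 * (R : ℝ) ^ 2)) * (T * (4 * (R : ℝ) ^ 2)) :=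
            mul_le_mul h2 h2 hp.le (by positivity)
        _ = 16 * T ^ 2 * (R : ℝ) ^ 4 := by ring
        _ ≤ 16 * T ^ 2 * (32 * 2 ^ R) := mul_le_mul_of_nonneg_left h3 (by positivity)
        _ = 512 * T ^ 2 * 2 ^ R := by ring
    have h5 : (2 : ℝ) ^ R ≤ 512 * T ^ 2 := le_of_mul_le_mul_right h4 (by positivity)
    have h6 : Real.log ((2 : ℝ) ^ R) ≤ Real.log (512 * T ^ 2) :=
      Real.log_le_log (by positivity) h5
    rw [Real.log_pow, Real.log_mul (by norm_num) (by positivity), Real.log_pow,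
      show (512 : ℝ) = 2 ^ 9 by norm_num, Real.log_pow] at h6
    push_cast at h6
    -- R log 2 <= 9 log 2 + 2 log T
    have h7 : (R : ℝ) * Real.log 2 ≤ 11 * Real.log T := by linarith
    have h8 : (g : ℝ) * Real.log 2 ≤ 72 * Real.log T := by
      have := mul_le_mul_of_nonneg_right hgR' (show 0 ≤ Real.log 2 by linarith)
      linarith
    nlinarith

/-- the conclusions for a group of good order -/
theorem degree_part {y S m : ℕ} {U : ℝ} (hU : 2 ≤ U) (hSy : S ≤ y) (hg : GoodDeg y S U m)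
    (hm : 0 < m) (V : Type) [Fintype V] [Nonempty V] (X : SimpleGraph V)
    (A : Type) [Group A] [Finite A] [MulAction A V]
    (horb : ∀ v : V, (MulAction.orbit A v).ncard = m) (hA : Nat.card A ≤ S * m)
    (haut : ∀ (a : A) (u v : V), X.Adj u v → X.Adj (a • u) (a • v)) (δ g : ℕ) (hδ3 : 3 ≤ δ)
    (hg1 : 1 ≤ g) (hδ : ∀ v : V, δ ≤ (X.neighborSet v).ncard)
    (hgirth : ∀ (v : V) (w : X.Walk v v), w.IsCycle → g ≤ w.length) :
    (g : ℝ) ≤ 104 * Real.log (U * Fintype.card V / m) ∧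
    (∀ R : ℕ, 6 * R < g →
      (m : ℝ) * ((δ : ℝ) - 1) ^ R ≤ U * 4 ^ Nat.size R * Fintype.card V) ∧
    ∀ γ : ℝ, 0 < γ → (Fintype.card V : ℝ) ≤ ((δ : ℝ) - 1) ^ (γ * g) →
      (m : ℝ) ≤ U * 4 ^ Nat.size ((g - 1) / 6) * ((δ : ℝ) - 1) *
        (Fintype.card V : ℝ) ^ (1 - 1 / (6 * γ)) := by
  classical
  obtain ⟨c, hfree, hc⟩ := exists_free hSy hg hm A V horb hA
  have hU0 : 0 < U := by linarith
  have hm0 : (0 : ℝ) < m := by exact_mod_cast hm
  have hfin : Finite (Subgroup.zpowers c) := inferInstance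
  let _ : Fintype (Subgroup.zpowers c) := Fintype.ofFinite _
  have hc' : (m : ℝ) ≤ U * (Fintype.card (Subgroup.zpowers c) : ℝ) := by
    rw [← Nat.card_eq_fintype_card]
    exact hc
  have hlaw : Pool.Agent.H268R2.LB.AltLaw (Subgroup.zpowers c) 3 3 :=
    Pool.Agent.H268R2.LB.altLaw_comm (fun a b => by
      obtain ⟨i, hi⟩ := Subgroup.mem_zpowers_iff.1 a.2
      obtain ⟨j, hj⟩ := Subgroup.mem_zpowers_iff.1 b.2
      apply Subtype.ext
      rw [Subgroup.coe_mul, Subgroup.coe_mul, ← hi, ← hj, ← zpow_add, ← zpow_add, add_comm])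
  have hdeg : ∀ v : V, δ ≤ (Finset.univ.filter (fun y => X.Adj v y)).card := by
    intro v
    refine (hδ v).trans (le_of_eq ?_)
    rw [← Set.ncard_coe_finset]
    congr 1
    ext u
    simp [SimpleGraph.mem_neighborSet]
  have hδ1 : ((δ - 1 : ℕ) : ℝ) = (δ : ℝ) - 1 := by
    rw [Nat.cast_sub (by omega)]
    norm_num
  have h1 : ∀ R : ℕ, 6 * R < g →
      Fintype.card (Subgroup.zpowers c) * (δ - 1) ^ R ≤ 4 ^ Nat.size R * Fintype.card V := by
    intro R hR
    exact Pool.Agent.H268R2.LB.min_degree_bound (A := Subgroup.zpowers c) (M := 6 * R) (L := 3)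
      (N := 3) (fun v p hp => lt_of_lt_of_le hR (hgirth v p hp))
      (fun a u v h => haut a.1 u v h)
      (fun a v hv => Subtype.ext (hfree a.1 a.2 v hv)) hlaw (by omega) hdeg
  have h2 : ∀ R : ℕ, 6 * R < g →
      (m : ℝ) * ((δ : ℝ) - 1) ^ R ≤ U * 4 ^ Nat.size R * Fintype.card V := by
    intro R hR
    have h3 : (Fintype.card (Subgroup.zpowers c) : ℝ) * ((δ : ℝ) - 1) ^ R ≤
        4 ^ Nat.size R * Fintype.card V := by
      rw [← hδ1]
      exact_mod_cast h1 R hR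
    have h4 : (0 : ℝ) ≤ ((δ : ℝ) - 1) ^ R := by
      rw [← hδ1]
      positivity
    calc (m : ℝ) * ((δ : ℝ) - 1) ^ R
        ≤ U * (Fintype.card (Subgroup.zpowers c) : ℝ) * ((δ : ℝ) - 1) ^ R :=
          mul_le_mul_of_nonneg_right hc' h4
      _ = U * ((Fintype.card (Subgroup.zpowers c) : ℝ) * ((δ : ℝ) - 1) ^ R) := by ring
      _ ≤ U * (4 ^ Nat.size R * Fintype.card V) := mul_le_mul_of_nonneg_left h3 hU0.le
      _ = U * 4 ^ Nat.size R * Fintype.card V := by ring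
  have hVm : (m : ℝ) ≤ Fintype.card V := by
    obtain ⟨v⟩ := ‹Nonempty V›
    have h3 : m ≤ Fintype.card V := by
      rw [← horb v, ← Nat.card_eq_fintype_card, ← Set.ncard_univ]
      exact Set.ncard_le_ncard (Set.subset_univ _) (Set.toFinite _)
    exact_mod_cast h3
  refine ⟨?_, h2, ?_⟩
  · apply girth_log
    · rw [le_div_iff₀ hm0]
      nlinarith
    · have h3 := h2 ((g - 1) / 6) (by omega)
      have h4 : (2 : ℝ) ^ ((g - 1) / 6) ≤ ((δ : ℝ) - 1) ^ ((g - 1) / 6) := by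
        apply pow_le_pow_left₀ (by norm_num)
        have : (3 : ℝ) ≤ δ := by exact_mod_cast hδ3
        linarith
      rw [div_mul_eq_mul_div, le_div_iff₀ hm0]
      calc (2 : ℝ) ^ ((g - 1) / 6) * m ≤ ((δ : ℝ) - 1) ^ ((g - 1) / 6) * m :=
            mul_le_mul_of_nonneg_right h4 hm0.le
        _ = m * ((δ : ℝ) - 1) ^ ((g - 1) / 6) := by ring
        _ ≤ _ := h3
        _ = _ := by ring
  · intro γ hγ hsmall
    have h3 := Pool.Agent.H268R2.LB.power_form (L := 3) (K := 4) (by norm_num) hδ3 hg1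
      Fintype.card_pos (h1 ((g - 1) / 6) (by omega)) hγ hsmall
    have h4 : (2 : ℝ) * ((3 : ℕ) : ℝ) * γ = 6 * γ := by push_cast; ring
    have h5 : ((4 : ℕ) : ℝ) = 4 := by norm_num
    rw [h4, h5] at h3
    calc (m : ℝ) ≤ U * (Fintype.card (Subgroup.zpowers c) : ℝ) := hc'
      _ ≤ U * (4 ^ Nat.size ((g - 1) / 6) * ((δ : ℝ) - 1) *
          (Fintype.card V : ℝ) ^ (1 - 1 / (6 * γ))) := by
          exact mul_le_mul_of_nonneg_left h3 hU0.le
      _ = _ := by ring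

/-- the conclusions for a group of good order: graphs with many edges and no short cycles -/
theorem edges_part {y S m : ℕ} {U : ℝ} (hU : 2 ≤ U) (hSy : S ≤ y) (hg : GoodDeg y S U m)
    (hm : 0 < m) (V : Type) [Fintype V] [Nonempty V] (X : SimpleGraph V)
    (A : Type) [Group A] [Finite A] [MulAction A V]
    (horb : ∀ v : V, (MulAction.orbit A v).ncard = m) (hA : Nat.card A ≤ S * m)
    (haut : ∀ (a : A) (u v : V), X.Adj u v → X.Adj (a • u) (a • v)) (k : ℕ) (hk : 1 ≤ k)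
    (hgirth : ∀ (v : V) (w : X.Walk v v), w.IsCycle → 2 * k < w.length) (R : ℕ)
    (hR : 3 * R ≤ k) :
    (m : ℝ) * ((X.edgeSet.ncard / Fintype.card V : ℕ) : ℝ) ^ R ≤
      U * 4 ^ Nat.size R * Fintype.card V ∧
    ∀ c : ℝ, 0 < c → c * (Fintype.card V : ℝ) ^ (1 + 1 / (k : ℝ)) ≤ (X.edgeSet.ncard : ℝ) →
      (m : ℝ) ≤ U * 4 ^ Nat.size R * (2 / c) ^ R *
        (Fintype.card V : ℝ) ^ (1 - (R : ℝ) / (k : ℝ)) := by
  classical
  obtain ⟨c, hfree, hc⟩ := exists_free hSy hg hm A V horb hA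
  have hU0 : 0 < U := by linarith
  have hfin : Finite (Subgroup.zpowers c) := inferInstance
  let _ : Fintype (Subgroup.zpowers c) := Fintype.ofFinite _
  have hc' : (m : ℝ) ≤ U * (Fintype.card (Subgroup.zpowers c) : ℝ) := by
    rw [← Nat.card_eq_fintype_card]
    exact hc
  have hlaw : Pool.Agent.H268R2.LB.AltLaw (Subgroup.zpowers c) 3 3 :=
    Pool.Agent.H268R2.LB.altLaw_comm (fun a b => by
      obtain ⟨i, hi⟩ := Subgroup.mem_zpowers_iff.1 a.2
      obtain ⟨j, hj⟩ := Subgroup.mem_zpowers_iff.1 b.2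
      apply Subtype.ext
      rw [Subgroup.coe_mul, Subgroup.coe_mul, ← hi, ← hj, ← zpow_add, ← zpow_add, add_comm])
  have hE : X.edgeSet.ncard = X.edgeFinset.card := by
    rw [← SimpleGraph.coe_edgeFinset, Set.ncard_coe_finset]
  constructor
  · have h1 := Pool.Agent.H268R2.LB.edges_bound (A := Subgroup.zpowers c) (M := 2 * k) (L := 3)
      (N := 3) (R := R) hgirth (fun a u v h => haut a.1 u v h)
      (fun a v hv => Subtype.ext (hfree a.1 a.2 v hv)) hlaw (by omega)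
    have h2 : (Fintype.card (Subgroup.zpowers c) : ℝ) *
        ((X.edgeSet.ncard / Fintype.card V : ℕ) : ℝ) ^ R ≤ 4 ^ Nat.size R * Fintype.card V := by
      rw [hE]
      exact_mod_cast h1
    calc (m : ℝ) * ((X.edgeSet.ncard / Fintype.card V : ℕ) : ℝ) ^ R
        ≤ U * (Fintype.card (Subgroup.zpowers c) : ℝ) *
            ((X.edgeSet.ncard / Fintype.card V : ℕ) : ℝ) ^ R :=
          mul_le_mul_of_nonneg_right hc' (by positivity)
      _ = U * ((Fintype.card (Subgroup.zpowers c) : ℝ) *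
            ((X.edgeSet.ncard / Fintype.card V : ℕ) : ℝ) ^ R) := by ring
      _ ≤ U * (4 ^ Nat.size R * Fintype.card V) := mul_le_mul_of_nonneg_left h2 hU0.le
      _ = U * 4 ^ Nat.size R * Fintype.card V := by ring
  · intro e he hedge
    rw [hE] at hedge
    have h1 := Pool.Agent.H268R2.LB.real_bound (A := Subgroup.zpowers c) (L := 3)
      (N := 3) (R := R) hgirth (fun a u v h => haut a.1 u v h)
      (fun a v hv => Subtype.ext (hfree a.1 a.2 v hv)) hlaw hk hR he hedge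
    have h2 : (((2 * (3 - 1)) ^ Nat.size R : ℕ) : ℝ) = 4 ^ Nat.size R := by
      norm_num
    rw [h2] at h1
    calc (m : ℝ) ≤ U * (Fintype.card (Subgroup.zpowers c) : ℝ) := hc'
      _ ≤ U * (4 ^ Nat.size R * (2 / e) ^ R *
          (Fintype.card V : ℝ) ^ (1 - (R : ℝ) / (k : ℝ))) := mul_le_mul_of_nonneg_left h1 hU0.le
      _ = _ := by ring

end Pool.Agent.TH669.AD
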