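import Mathlib

set_option autoImplicit false

/-!
MP_d4e2f9_lc (AD): Sylow counting and the cyclic normal subgroup.
-/

namespace Pool.Agent.TH669.AD

open Finset

section Abs

variable {A : Type} [Group A]

/-- `g` is an element of `G` of order `m` which generates a normal subgroup of `G` -/
def NC (G : Subgroup A) (m : ℕ) (g : A) : Prop :=
  g ∈ G ∧ orderOf g = m ∧ ∀ h ∈ G, h * g * h⁻¹ ∈ Subgroup.zpowers g

theorem NC.conj {G : Subgroup A} {m : ℕ} {g : A} (H : NC G m g) {h x : A} (hh : h ∈ G)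
    (hx : x ∈ Subgroup.zpowers g) : h * x * h⁻¹ ∈ Subgroup.zpowers g := by
  obtain ⟨i, rfl⟩ := Subgroup.mem_zpowers_iff.1 hx
  have h1 : h * g ^ i * h⁻¹ = (h * g * h⁻¹) ^ i := by rw [conj_zpow]
  rw [h1]
  exact Subgroup.zpow_mem _ (H.2.2 h hh) i

theorem NC.commute {G : Subgroup A} {m q : ℕ} {g g' : A} (H : NC G m g) (H' : NC G q g')
    (hmq : Nat.Coprime m q) : Commute g g' := by
  have hcop : Nat.Coprime (Nat.card (Subgroup.zpowers g)) (Nat.card (Subgroup.zpowers g')) := by
    rw [Nat.card_zpowers, Nat.card_zpowers, H.2.1, H'.2.1]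
    exact hmq
  have hbot : Subgroup.zpowers g ⊓ Subgroup.zpowers g' = ⊥ :=
    disjoint_iff.1 (Subgroup.disjoint_of_coprime_natCard hcop)
  have h1 : g * g' * g⁻¹ * g'⁻¹ ∈ Subgroup.zpowers g ⊓ Subgroup.zpowers g' := by
    constructor
    · have h2 : g' * g⁻¹ * g'⁻¹ ∈ Subgroup.zpowers g :=
        H.conj H'.1 (Subgroup.inv_mem _ (Subgroup.mem_zpowers g))
      have h3 := Subgroup.mul_mem _ (Subgroup.mem_zpowers g) h2
      have h4 : g * g' * g⁻¹ * g'⁻¹ = g * (g' * g⁻¹ * g'⁻¹) := by group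
      rw [h4]
      exact h3
    · exact Subgroup.mul_mem _ (H'.2.2 g H.1) (Subgroup.inv_mem _ (Subgroup.mem_zpowers g'))
  rw [hbot, Subgroup.mem_bot] at h1
  have h2 : g * g' = g' * g := by
    have h3 : g * g' * g⁻¹ * g'⁻¹ * (g' * g) = g' * g := by rw [h1, one_mul]
    have h4 : g * g' * g⁻¹ * g'⁻¹ * (g' * g) = g * g' := by group
    rw [h4] at h3
    exact h3
  exact h2

theorem NC.mul {G : Subgroup A} {m q : ℕ} {g g' : A} (H : NC G m g) (H' : NC G q g')
    (hmq : Nat.Coprime m q) :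
    NC G (m * q) (g * g') ∧ g ∈ Subgroup.zpowers (g * g') ∧ g' ∈ Subgroup.zpowers (g * g') := by
  have hc : Commute g g' := H.commute H' hmq
  have hco : (orderOf g).Coprime (orderOf g') := by rw [H.2.1, H'.2.1]; exact hmq
  have h1 : orderOf (g * g') = m * q := by
    rw [hc.orderOf_mul_eq_mul_orderOf_of_coprime hco, H.2.1, H'.2.1]
  have hg : g ∈ Subgroup.zpowers (g * g') := by
    have h2 : (g * g') ^ q = g ^ q := by
      rw [hc.mul_pow, ← H'.2.1, pow_orderOf_eq_one, mul_one]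
    have h3 : g ∈ Subgroup.zpowers (g ^ q) := by
      rw [mem_zpowers_pow_iff, H.2.1]
      exact hmq.symm
    rw [← h2] at h3
    exact (Subgroup.zpowers_le.2 (Subgroup.pow_mem _ (Subgroup.mem_zpowers (g * g')) q)) h3
  have hg' : g' ∈ Subgroup.zpowers (g * g') := by
    have h2 : (g * g') ^ m = g' ^ m := by
      rw [hc.mul_pow, ← H.2.1, pow_orderOf_eq_one, one_mul]
    have h3 : g' ∈ Subgroup.zpowers (g' ^ m) := by
      rw [mem_zpowers_pow_iff, H'.2.1]
      exact hmq
    rw [← h2] at h3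
    exact (Subgroup.zpowers_le.2 (Subgroup.pow_mem _ (Subgroup.mem_zpowers (g * g')) m)) h3
  refine ⟨⟨G.mul_mem H.1 H'.1, h1, ?_⟩, hg, hg'⟩
  intro h hh
  have h2 : h * (g * g') * h⁻¹ = (h * g * h⁻¹) * (h * g' * h⁻¹) := by group
  rw [h2]
  exact Subgroup.mul_mem _ ((Subgroup.zpowers_le.2 hg) (H.2.2 h hh))
    ((Subgroup.zpowers_le.2 hg') (H'.2.2 h hh))

theorem NC.exists_prod {G : Subgroup A} (V : Finset ℕ) (hV : ∀ p ∈ V, p.Prime)
    (hg : ∀ p ∈ V, ∃ g, NC G p g) :
    ∃ c, NC G (∏ p ∈ V, p) c ∧ ∀ p ∈ V, ∃ g ∈ Subgroup.zpowers c, NC G p g := by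
  classical
  induction V using Finset.induction_on with
  | empty =>
    refine ⟨1, ⟨G.one_mem, by simp, ?_⟩, by simp⟩
    intro h _
    simp
  | insert q V hq ih =>
    obtain ⟨c, hc, hcV⟩ := ih (fun p hp => hV p (mem_insert_of_mem hp))
      (fun p hp => hg p (mem_insert_of_mem hp))
    obtain ⟨g, hgq⟩ := hg q (mem_insert_self q V)
    have hcop : Nat.Coprime (∏ p ∈ V, p) q := by
      rw [Nat.coprime_prod_left_iff]
      intro p hp
      rw [Nat.coprime_primes (hV p (mem_insert_of_mem hp)) (hV q (mem_insert_self q V))]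
      rintro rfl
      exact hq hp
    obtain ⟨h1, h2, h3⟩ := hc.mul hgq hcop
    refine ⟨c * g, ?_, ?_⟩
    · rw [prod_insert hq, mul_comm]
      exact h1
    · intro p hp
      rw [mem_insert] at hp
      rcases hp with rfl | hp
      · exact ⟨g, h3, hgq⟩
      · obtain ⟨g', hg', hN⟩ := hcV p hp
        exact ⟨g', (Subgroup.zpowers_le.2 h2) hg', hN⟩

/-- the Sylow subgroup is normal of order `p` -/
theorem NC.of_sylow [Finite A] (G : Subgroup A) (p : ℕ) (hp : p.Prime) (M : ℕ)
    (hcard : Nat.card G = p * M) (hpM : ¬ p ∣ M)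
    (hdiv : ∀ d, d ∣ M → d ≡ 1 [MOD p] → d = 1) : ∃ g, NC G p g := by
  have : Fact p.Prime := ⟨hp⟩
  have : Finite G := inferInstance
  let P : Sylow p G := default
  have hPc : Nat.card P = p := by
    rw [Sylow.card_eq_multiplicity, hcard]
    have hM0 : M ≠ 0 := by
      rintro rfl
      simp at hpM
    rw [Nat.factorization_mul hp.ne_zero hM0]
    simp [hp.factorization_self, Nat.factorization_eq_zero_of_not_dvd hpM]
  have hidx : (P : Subgroup G).index = M := by
    have h1 := (P : Subgroup G).card_mul_index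
    rw [hcard] at h1
    have h2 : Nat.card (P : Subgroup G) = p := hPc
    rw [h2] at h1
    exact Nat.eq_of_mul_eq_mul_left hp.pos h1
  have hN : Nat.card (Sylow p G) = 1 := by
    apply hdiv
    · rw [← hidx]
      exact P.card_dvd_index
    · exact card_sylow_modEq_one p G
  have : Subsingleton (Sylow p G) := by
    rw [← Finite.card_le_one_iff_subsingleton]
    exact hN.le
  have hnormal : (P : Subgroup G).Normal := Sylow.normal_of_subsingleton P
  have : IsCyclic (P : Subgroup G) := isCyclic_of_prime_card (p := p) hPc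
  obtain ⟨g, hg⟩ := IsCyclic.exists_generator (α := (P : Subgroup G))
  have hPz : (P : Subgroup G) = Subgroup.zpowers (g : G) := by
    ext x
    constructor
    · intro hx
      obtain ⟨i, hi⟩ := Subgroup.mem_zpowers_iff.1 (hg ⟨x, hx⟩)
      rw [Subgroup.mem_zpowers_iff]
      refine ⟨i, ?_⟩
      have := congrArg (fun y : (P : Subgroup G) => (y : G)) hi
      simpa using this
    · intro hx
      exact (Subgroup.zpowers_le.2 g.2) hx
  refine ⟨((g : G) : A), (g : G).2, ?_, ?_⟩
  · rw [Subgroup.orderOf_coe, ← Nat.card_zpowers]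
    rw [← hPz]
    exact hPc
  · intro h hh
    have h1 : (⟨h, hh⟩ : G) * (g : G) * (⟨h, hh⟩ : G)⁻¹ ∈ (P : Subgroup G) :=
      hnormal.conj_mem _ g.2 _
    have h2 : ∀ x : G, x ∈ (P : Subgroup G) → x ∈ Subgroup.zpowers (g : G) := by
      intro x hx
      rw [← hPz]
      exact hx
    obtain ⟨i, hi⟩ := Subgroup.mem_zpowers_iff.1 (h2 _ h1)
    rw [Subgroup.mem_zpowers_iff]
    refine ⟨i, ?_⟩
    have := congrArg (fun y : G => (y : A)) hi
    simpa using this

end Abs

section Perm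

variable {n : ℕ}

/-- a normal subgroup of prime order of a transitive group acts without fixed points -/
theorem NC.fixfree {G : Subgroup (Equiv.Perm (Fin n))} {p : ℕ} {g : Equiv.Perm (Fin n)}
    (hp : p.Prime) (H : NC G p g) (htr : ∀ i j : Fin n, ∃ σ ∈ G, σ i = j) (i : Fin n) :
    g i ≠ i := by
  intro hi
  have hall : ∀ j, g j = j := by
    intro j
    obtain ⟨σ, hσ, hσi⟩ := htr i j
    have h1 : σ⁻¹ * g * σ⁻¹⁻¹ ∈ Subgroup.zpowers g := H.2.2 σ⁻¹ (G.inv_mem hσ)
    obtain ⟨m, hm⟩ := Subgroup.mem_zpowers_iff.1 h1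
    have h2 : (g ^ m) i = i := Equiv.Perm.zpow_apply_eq_self_of_apply_eq_self hi m
    rw [hm] at h2
    simp only [inv_inv, Equiv.Perm.mul_apply] at h2
    rw [hσi] at h2
    have h3 := congrArg σ h2
    rw [hσi] at h3
    have h4 : σ (σ⁻¹ (g j)) = g j := by simp
    rw [h4] at h3
    exact h3
  have h1 : g = 1 := Equiv.ext hall
  have h2 := H.2.1
  rw [h1, orderOf_one] at h2
  exact hp.one_lt.ne h2

theorem dvd_card {G : Subgroup (Equiv.Perm (Fin n))} {p : ℕ} {g : Equiv.Perm (Fin n)}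
    (hp : p.Prime) (H : NC G p g) (htr : ∀ i j : Fin n, ∃ σ ∈ G, σ i = j)
    (S : Finset (Fin n)) (hS : S.map g.toEmbedding = S) : p ∣ S.card := by
  classical
  have : Fact p.Prime := ⟨hp⟩
  by_contra hnd
  have hmem : ∀ x, g x ∈ S ↔ x ∈ S := by
    intro x
    constructor
    · intro hx
      rw [← hS, mem_map] at hx
      obtain ⟨y, hy, hyx⟩ := hx
      have : y = x := g.injective hyx
      rwa [← this]
    · intro hx
      rw [← hS]
      exact mem_map_of_mem _ hx
  have hpow : (g.subtypePerm hmem) ^ p ^ 1 = 1 := by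
    rw [pow_one, Equiv.Perm.subtypePerm_pow]
    ext x
    have : g ^ p = 1 := by rw [← H.2.1]; exact pow_orderOf_eq_one g
    simp [this]
  obtain ⟨a, ha⟩ := Equiv.Perm.exists_fixed_point_of_prime (p := p) (n := 1)
    (by rw [Fintype.card_coe]; exact hnd) hpow
  have h1 := congrArg Subtype.val ha
  simp only [Equiv.Perm.subtypePerm_apply] at h1
  exact H.fixfree hp htr a h1

end Perm

end Pool.Agent.TH669.AD
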