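import Pool.Agent.TH669.AD.Main
import Pool.Agent.TH669.AD.Group

set_option autoImplicit false

/-!
MP_d4e2f9_lc (AD): good degrees.
-/

namespace Pool.Agent.TH669.AD

open Finset
open Pool.Agent.H119R2.Kp (Dec)

/-- the prime divisors of `n` larger than `y` -/
def big (y n : ℕ) : Finset ℕ := n.primeFactors.filter (fun p => y < p)

/-- good degrees -/
structure GoodDeg (y S : ℕ) (U : ℝ) (n : ℕ) : Prop where
  sqf : ∀ p, p.Prime → y < p → ¬ p ^ 2 ∣ n
  cong : ∀ p, p.Prime → y < p → ∀ d₁ d₂, p * d₁ ∣ n → 1 ≤ d₂ → d₂ ≤ S → d₁ * d₂ ≡ 1 [MOD p] →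
    d₁ * d₂ = 1
  smooth : (n : ℝ) ≤ U * ((∏ p ∈ big y n, p : ℕ) : ℝ)

theorem good_bound {y S n k : ℕ} {U : ℝ} (hU : 0 ≤ U) (hSy : S ≤ y) (hg : GoodDeg y S U n) (hn : 0 < n)
    (G : Subgroup (Equiv.Perm (Fin n))) (htr : ∀ i j : Fin n, ∃ σ ∈ G, σ i = j)
    (hG : Nat.card G ≤ S * n) (f : (Fin n → Bool) → Bool) (hf : Monotone f)
    (hne : ∃ x y, f x ≠ f y) (hinv : ∀ σ ∈ G, ∀ x : Fin n → Bool, f (x ∘ σ) = f x)
    (hk : Dec k (FS f)) : (n : ℝ) ^ 2 ≤ U * (k : ℝ) ^ 2 := by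
  classical
  -- the order of the group
  have hdvd : n ∣ Nat.card G := by
    have hpre : MulAction.IsPretransitive G (Fin n) :=
      ⟨fun i j => by
        obtain ⟨σ, hσ, h⟩ := htr i j
        exact ⟨⟨σ, hσ⟩, h⟩⟩
    have h1 := MulAction.index_stabilizer_of_transitive G (⟨0, hn⟩ : Fin n)
    rw [Nat.card_eq_fintype_card, Fintype.card_fin] at h1
    have h2 := Subgroup.index_dvd_card (MulAction.stabilizer G (⟨0, hn⟩ : Fin n))
    rw [h1] at h2
    exact h2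
  obtain ⟨s, hs⟩ := hdvd
  have hGpos : 0 < Nat.card G := Nat.card_pos
  have hspos : 0 < s := by
    rcases Nat.eq_zero_or_pos s with h | h
    · rw [h] at hs
      omega
    · exact h
  have hsS : s ≤ S := by
    have h1 : n * s ≤ n * S := by rw [← hs, mul_comm n S]; exact hG
    exact Nat.le_of_mul_le_mul_left h1 hn
  -- the generators
  have hNC : ∀ p ∈ big y n, ∃ g, NC G p g := by
    intro p hp
    obtain ⟨hp1, hyp⟩ := mem_filter.1 hp
    have hpp : p.Prime := Nat.prime_of_mem_primeFactors hp1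
    obtain ⟨n', hn'⟩ := Nat.dvd_of_mem_primeFactors hp1
    refine NC.of_sylow G p hpp (n' * s) (by rw [hs, hn', mul_assoc]) ?_ ?_
    · intro hdvd
      rcases (Nat.Prime.dvd_mul hpp).1 hdvd with h | h
      · apply hg.sqf p hpp hyp
        obtain ⟨m, hm⟩ := h
        exact ⟨m, by rw [hn', hm]; ring⟩
      · have := Nat.le_of_dvd hspos h
        omega
    · intro d hd hd1
      obtain ⟨d₁, d₂, h1, h2, h3⟩ := (Nat.dvd_mul).1 hd
      rw [← h3] at hd1 ⊢
      refine hg.cong p hpp hyp d₁ d₂ ?_ ?_ ?_ hd1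
      · rw [hn']
        exact Nat.mul_dvd_mul_left p h1
      · exact Nat.pos_of_dvd_of_pos h2 hspos
      · exact (Nat.le_of_dvd hspos h2).trans hsS
  obtain ⟨c, hc, hcV⟩ := NC.exists_prod (big y n)
    (fun p hp => Nat.prime_of_mem_primeFactors (mem_filter.1 hp).1) hNC
  have hv : ∀ T : Finset (Fin n), T.Nonempty → Inv (Subgroup.zpowers c) T →
      ∏ p ∈ big y n, p ≤ T.card := by
    intro T hT hinvT
    apply Nat.le_of_dvd (card_pos.2 hT)
    apply Finset.prod_primes_dvd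
    · intro p hp
      exact (Nat.prime_of_mem_primeFactors (mem_filter.1 hp).1).prime
    · intro p hp
      obtain ⟨g, hg1, hg2⟩ := hcV p hp
      exact dvd_card (Nat.prime_of_mem_primeFactors (mem_filter.1 hp).1) hg2 htr T (hinvT g hg1)
  have h := main G (Subgroup.zpowers c) (Subgroup.zpowers_le.2 hc.1)
    (fun g hgG h hh => hc.conj hgG hh) htr (crit_zpowers c) _ hv f hf hne hinv hk
  have h' : (n : ℝ) * ((∏ p ∈ big y n, p : ℕ) : ℝ) ≤ (k : ℝ) ^ 2 := by exact_mod_cast h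
  calc (n : ℝ) ^ 2 = n * n := by ring
    _ ≤ n * (U * ((∏ p ∈ big y n, p : ℕ) : ℝ)) :=
        mul_le_mul_of_nonneg_left hg.smooth (Nat.cast_nonneg n)
    _ = U * (n * ((∏ p ∈ big y n, p : ℕ) : ℝ)) := by ring
    _ ≤ U * (k : ℝ) ^ 2 := mul_le_mul_of_nonneg_left h' hU

end Pool.Agent.TH669.AD
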