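import Pool.Agent.TH669.AD.Core

set_option autoImplicit false

/-!
MP_d4e2f9_lc (AD): a monotone function which is invariant under a transitive group `G` with a
normal subgroup `Γ` for which the fixed point criterion holds, all invariant sets of `Γ` having
at least `v` elements, has decision tree complexity at least `√(n v)`.
-/

namespace Pool.Agent.TH669.AD

open Finset
open Pool.Agent.H98R2.Ev (NE)
open Pool.Agent.H119R2.Kp (Dec ne_congr)

variable {n : ℕ}

/-- a function of `n` bits as a predicate on sets -/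
def FS (f : (Fin n → Bool) → Bool) (S : Finset (Fin n)) : Prop :=
  f (fun i => decide (i ∈ S)) = true

theorem FS_mono {f : (Fin n → Bool) → Bool} (hf : Monotone f) {S S' : Finset (Fin n)}
    (h : S ⊆ S') (hS : FS f S) : FS f S' := by
  unfold FS at *
  have h1 : (fun i => decide (i ∈ S)) ≤ (fun i => decide (i ∈ S')) := by
    intro i
    rw [Bool.le_iff_imp]
    simp only [decide_eq_true_eq]
    exact fun hi => h hi
  have h2 := hf h1
  rw [hS] at h2
  exact Bool.eq_true_of_true_le h2

theorem FS_map {f : (Fin n → Bool) → Bool} {σ : Equiv.Perm (Fin n)}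
    (hσ : ∀ x : Fin n → Bool, f (x ∘ σ) = f x) (S : Finset (Fin n)) :
    FS f (S.map σ.toEmbedding) ↔ FS f S := by
  unfold FS
  rw [← hσ (fun i => decide (i ∈ S.map σ.toEmbedding))]
  have : (fun i => decide (i ∈ S.map σ.toEmbedding)) ∘ σ = fun i => decide (i ∈ S) := by
    funext i
    simp
  rw [this]

theorem FS_dec {k : ℕ} {f : (Fin n → Bool) → Bool}
    (h : ∀ P : ℕ → ((Fin n → Bool) → Bool) → Prop,
      (∀ (m : ℕ) (g : (Fin n → Bool) → Bool), (∀ x y, g x = g y) → P m g) →
      (∀ (m : ℕ) (g : (Fin n → Bool) → Bool) (i : Fin n),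
        P m (fun x => g (Function.update x i false)) →
        P m (fun x => g (Function.update x i true)) → P (m + 1) g) →
      P k f) : Dec k (FS f) := by
  refine h (fun m g => Dec m (FS g)) ?_ ?_
  · intro m g hg
    refine Dec.const m _ ?_
    by_cases h0 : g (fun _ => false) = true
    · left
      intro S
      unfold FS
      rw [hg _ (fun _ => false), h0]
    · right
      intro S
      unfold FS
      rw [hg _ (fun _ => false)]
      exact h0
  · intro m g i h0 h1
    refine Dec.node m _ i ?_ ?_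
    · have : (fun S : Finset (Fin n) => FS g (S.erase i)) =
          FS (fun x => g (Function.update x i false)) := by
        funext S
        unfold FS
        congr 2
        funext j
        by_cases hj : j = i
        · subst hj
          simp
        · simp [hj]
      rw [this]
      exact h0
    · have : (fun S : Finset (Fin n) => FS g (insert i S)) =
          FS (fun x => g (Function.update x i true)) := by
        funext S
        unfold FS
        congr 2
        funext j
        by_cases hj : j = i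
        · subst hj
          simp
        · simp [hj]
      rw [this]
      exact h1

theorem dec_dual {k : ℕ} {D : Finset (Fin n) → Prop} (h : Dec k D) :
    Dec k (fun S => ¬ D Sᶜ) := by
  induction h with
  | const q D h =>
    refine Dec.const q _ ?_
    rcases h with h | h
    · exact Or.inr fun S h' => h' (h _)
    · exact Or.inl fun S => h _
  | node q D e _ _ ih0 ih1 =>
    refine Dec.node q _ e ?_ ?_
    · have : (fun S : Finset (Fin n) => ¬ D (S.erase e)ᶜ) = fun S => ¬ D (insert e Sᶜ) := by
        funext S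
        rw [compl_erase]
      rw [this]
      exact ih1
    · have : (fun S : Finset (Fin n) => ¬ D (insert e S)ᶜ) = fun S => ¬ D (Sᶜ.erase e) := by
        funext S
        rw [compl_insert]
      rw [this]
      exact ih0

theorem map_map_perm (S : Finset (Fin n)) (g h : Equiv.Perm (Fin n)) :
    (S.map g.toEmbedding).map h.toEmbedding = S.map (h * g).toEmbedding := by
  ext x
  simp only [mem_map, Equiv.coe_toEmbedding]
  constructor
  · rintro ⟨y, ⟨z, hz, rfl⟩, rfl⟩
    exact ⟨z, hz, rfl⟩
  · rintro ⟨z, hz, rfl⟩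
    exact ⟨g z, ⟨z, hz, rfl⟩, rfl⟩

/-- a minimal invariant 1-set has at most `k` elements -/
theorem one_set {k : ℕ} (Γ : Subgroup (Equiv.Perm (Fin n))) (hcrit : Crit Γ)
    (F : Finset (Fin n) → Prop) (hup : ∀ S S', S ⊆ S' → F S → F S')
    (hinv : ∀ g ∈ Γ, ∀ S, F (S.map g.toEmbedding) ↔ F S) (hdec : Dec k F) (h0 : ¬ F ∅)
    (h1 : F univ) : ∃ T, F T ∧ Inv Γ T ∧ T.card ≤ k := by
  classical
  have hex : ∃ m, ∃ T : Finset (Fin n), F T ∧ Inv Γ T ∧ T.card = m := by
    refine ⟨_, univ, h1, ?_, rfl⟩
    intro g _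
    ext x
    simp
  obtain ⟨T, hT1, hT2, hT3⟩ := Nat.find_spec hex
  refine ⟨T, hT1, hT2, ?_⟩
  by_contra hlt
  rw [not_le] at hlt
  have hmin : ∀ S, S ⊂ T → Inv Γ S → ¬ F S := by
    intro S hS hi hF
    have h2 : S.card < T.card := card_lt_card hS
    rw [hT3] at h2
    exact Nat.find_min hex h2 ⟨S, hF, hi, rfl⟩
  have hne : T.Nonempty := by
    rw [nonempty_iff_ne_empty]
    rintro rfl
    exact h0 hT1
  have hNE : NE T (fun S => ¬ F S) := by
    refine ne_congr (hdec.ne T ∅ (disjoint_empty_right _) hlt) _ fun S _ => ?_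
    rw [empty_union]
  refine hcrit T (fun S => ¬ F S) hne hT2 ?_ ?_ ?_ ?_ hNE
  · intro S S' h _ h2 h3
    exact h2 (hup S S' h h3)
  · intro g hg S _ h2
    rwa [hinv g hg S]
  · exact hmin
  · exact fun h => h hT1

theorem main {k : ℕ} (G Γ : Subgroup (Equiv.Perm (Fin n))) (hΓG : Γ ≤ G)
    (hnorm : ∀ g ∈ G, ∀ h ∈ Γ, g * h * g⁻¹ ∈ Γ) (htr : ∀ i j : Fin n, ∃ σ ∈ G, σ i = j)
    (hcrit : Crit Γ) (v : ℕ) (hv : ∀ S : Finset (Fin n), S.Nonempty → Inv Γ S → v ≤ S.card)
    (f : (Fin n → Bool) → Bool) (hf : Monotone f) (hne : ∃ x y, f x ≠ f y)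
    (hG : ∀ σ ∈ G, ∀ x : Fin n → Bool, f (x ∘ σ) = f x) (hk : Dec k (FS f)) : n * v ≤ k ^ 2 := by
  classical
  have hlow : ∀ x : Fin n → Bool, f (fun _ => false) ≤ f x := fun x => hf fun i => Bool.false_le _
  have hhigh : ∀ x : Fin n → Bool, f x ≤ f (fun _ => true) := fun x => hf fun i => Bool.le_true _
  have h0 : ¬ FS f ∅ := by
    unfold FS
    simp only [notMem_empty, decide_false]
    intro h
    obtain ⟨x, y, hxy⟩ := hne
    apply hxy
    have h1 := hlow x
    have h2 := hlow y
    rw [h] at h1 h2
    rw [Bool.eq_true_of_true_le h1, Bool.eq_true_of_true_le h2]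
  have h1 : FS f univ := by
    unfold FS
    simp only [mem_univ, decide_true]
    by_contra h
    rw [Bool.not_eq_true] at h
    obtain ⟨x, y, hxy⟩ := hne
    apply hxy
    have h1 := hhigh x
    have h2 := hhigh y
    rw [h] at h1 h2
    rw [Bool.eq_false_of_le_false h1, Bool.eq_false_of_le_false h2]
  obtain ⟨T, hT1, hT2, hT3⟩ := one_set Γ hcrit (FS f) (fun S S' h => FS_mono hf h)
    (fun g hg S => FS_map (hG g (hΓG hg)) S) hk h0 h1
  obtain ⟨T', hT'1, hT'2, hT'3⟩ := one_set Γ hcrit (fun S => ¬ FS f Sᶜ)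
    (fun S S' h h2 h3 => h2 (FS_mono hf (compl_subset_compl.2 h) h3))
    (fun g hg S => by
      have h2 : (S.map g.toEmbedding)ᶜ = Sᶜ.map g.toEmbedding := by
        ext x
        rw [mem_compl, mem_map, mem_map]
        constructor
        · intro h
          refine ⟨g⁻¹ x, ?_, by simp⟩
          rw [mem_compl]
          intro h3
          exact h ⟨g⁻¹ x, h3, by simp⟩
        · rintro ⟨y, hy, rfl⟩ ⟨z, hz, hzy⟩
          have : z = y := g.injective hzy
          rw [mem_compl] at hy
          exact hy (this ▸ hz)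
      rw [h2, FS_map (hG g (hΓG hg))])
    (dec_dual hk) (by rw [compl_empty]; exact fun h => h h1) (by rw [compl_univ]; exact h0)
  -- the group as a finset
  set A : Finset (Equiv.Perm (Fin n)) := univ.filter (fun g => g ∈ G) with hA
  have hAm : ∀ g, g ∈ A ↔ g ∈ G := by
    intro g
    simp [hA]
  have hApos : 0 < A.card := card_pos.2 ⟨1, (hAm 1).2 G.one_mem⟩
  have hinter : ∀ g ∈ A, v ≤ ((T.map g.toEmbedding) ∩ T').card := by
    intro g hg
    have hg' := (hAm g).1 hg
    apply hv
    · by_contra hemp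
      rw [not_nonempty_iff_eq_empty] at hemp
      have hsub : T.map g.toEmbedding ⊆ T'ᶜ := by
        intro x hx
        rw [mem_compl]
        intro hx'
        have : x ∈ (∅ : Finset (Fin n)) := by
          rw [← hemp]
          exact mem_inter.2 ⟨hx, hx'⟩
        simp at this
      exact hT'1 (FS_mono hf hsub ((FS_map (hG g hg') T).2 hT1))
    · intro h hh
      rw [map_inter, hT'2 h hh]
      congr 1
      rw [map_map_perm]
      have h3 : g⁻¹ * h * g ∈ Γ := by
        have := hnorm g⁻¹ (G.inv_mem hg') h hh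
        simpa using this
      have h4 := hT2 _ h3
      have h5 : h * g = g * (g⁻¹ * h * g) := by group
      rw [h5, ← map_map_perm, h4]
  have hc : ∀ i j j' : Fin n, (A.filter (fun g => g i = j)).card =
      (A.filter (fun g => g i = j')).card := by
    intro i j j'
    obtain ⟨τ, hτ, hτi⟩ := htr j j'
    refine card_bij' (fun g _ => τ * g) (fun g _ => τ⁻¹ * g) ?_ ?_ ?_ ?_
    · intro g hg
      rw [mem_filter, hAm] at hg ⊢
      refine ⟨G.mul_mem hτ hg.1, ?_⟩
      rw [Equiv.Perm.mul_apply, hg.2, hτi]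
    · intro g hg
      rw [mem_filter, hAm] at hg ⊢
      refine ⟨G.mul_mem (G.inv_mem hτ) hg.1, ?_⟩
      rw [Equiv.Perm.mul_apply, hg.2, ← hτi]
      simp
    · intro g _
      simp
    · intro g _
      simp
  have hcn : ∀ i j : Fin n, n * (A.filter (fun g => g i = j)).card = A.card := by
    intro i j
    have h2 : A.card = ∑ j', (A.filter (fun g => g i = j')).card :=
      card_eq_sum_card_fiberwise (f := fun g : Equiv.Perm (Fin n) => g i) (t := univ)
        (fun _ _ => mem_coe.2 (mem_univ _))
    rw [h2, sum_congr rfl (fun j' _ => hc i j' j)]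
    simp
  have hsum : n * ∑ g ∈ A, ((T.map g.toEmbedding) ∩ T').card = T.card * T'.card * A.card := by
    have h2 : ∀ g ∈ A, ((T.map g.toEmbedding) ∩ T').card =
        ∑ i ∈ T, ∑ j ∈ T', if g i = j then 1 else 0 := by
      intro g _
      have h3 : ((T.map g.toEmbedding) ∩ T').card = (T.filter (fun i => g i ∈ T')).card := by
        have h4 : (T.map g.toEmbedding) ∩ T' = (T.filter (fun i => g i ∈ T')).map g.toEmbedding := by
          ext x
          simp only [mem_inter, mem_map, mem_filter, Equiv.coe_toEmbedding]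
          constructor
          · rintro ⟨⟨i, hi, rfl⟩, h⟩
            exact ⟨i, ⟨hi, h⟩, rfl⟩
          · rintro ⟨i, ⟨hi, h⟩, rfl⟩
            exact ⟨⟨i, hi, rfl⟩, h⟩
        rw [h4, card_map]
      rw [h3, card_filter]
      refine sum_congr rfl fun i _ => ?_
      rw [sum_ite_eq]
    rw [sum_congr rfl h2, sum_comm]
    have h5 : ∀ i ∈ T, n * ∑ g ∈ A, ∑ j ∈ T', (if g i = j then 1 else 0) = T'.card * A.card := by
      intro i _
      rw [sum_comm, mul_sum]
      have h6 : ∀ j ∈ T', n * ∑ g ∈ A, (if g i = j then 1 else 0) = A.card := by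
        intro j _
        rw [← card_filter]
        exact hcn i j
      rw [sum_congr rfl h6, sum_const, smul_eq_mul]
    rw [mul_sum, sum_congr rfl h5, sum_const, smul_eq_mul, mul_assoc]
  have hge : A.card * v ≤ ∑ g ∈ A, ((T.map g.toEmbedding) ∩ T').card := by
    calc A.card * v = ∑ _g ∈ A, v := by rw [sum_const, smul_eq_mul]
      _ ≤ _ := sum_le_sum hinter
  have h7 : A.card * (n * v) ≤ A.card * (T.card * T'.card) := by
    calc A.card * (n * v) = n * (A.card * v) := by ring
      _ ≤ n * ∑ g ∈ A, ((T.map g.toEmbedding) ∩ T').card := Nat.mul_le_mul_left _ hge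
      _ = A.card * (T.card * T'.card) := by rw [hsum]; ring
  have h8 : n * v ≤ T.card * T'.card := Nat.le_of_mul_le_mul_left h7 hApos
  calc n * v ≤ T.card * T'.card := h8
    _ ≤ k * k := Nat.mul_le_mul hT3 hT'3
    _ = k ^ 2 := by ring

end Pool.Agent.TH669.AD
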