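import Pool.Agent.TH669.AD.Good

set_option autoImplicit false

/-!
MP_d4e2f9_lc (AD): the smooth part of an integer is small on average.
-/

namespace Pool.Agent.TH669.AD

open Finset Real
open scoped Nat

theorem fac_low (p y : ℕ) (hp : p.Prime) : y / p ≤ (y !).factorization p := by
  have : Fact p.Prime := ⟨hp⟩
  rw [Nat.factorization_def _ hp, padicValNat_factorial (p := p) (n := y) (b := Nat.log p y + 1)
    (Nat.lt_succ_self _)]
  rcases Nat.lt_or_ge y p with h | h
  · rw [Nat.div_eq_of_lt h]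
    exact Nat.zero_le _
  · have h1 : 1 ∈ Ico 1 (Nat.log p y + 1) := by
      rw [mem_Ico]
      have := Nat.log_pos hp.one_lt h
      omega
    have h2 := single_le_sum (f := fun i => y / p ^ i) (fun i _ => Nat.zero_le _) h1
    simpa using h2

theorem fac_up (p x : ℕ) (hp : p.Prime) : ((x !).factorization p : ℝ) ≤ x / (p - 1) := by
  have : Fact p.Prime := ⟨hp⟩
  have h := sub_one_mul_padicValNat_factorial (p := p) x
  rw [← Nat.factorization_def _ hp] at h
  have h1 : (p - 1) * (x !).factorization p ≤ x := by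
    rw [h]
    exact Nat.sub_le _ _
  have hp1 : (0 : ℝ) < (p : ℝ) - 1 := by
    have : (1 : ℝ) < p := by exact_mod_cast hp.one_lt
    linarith
  rw [le_div_iff₀ hp1]
  have h2 : (((p - 1) * (x !).factorization p : ℕ) : ℝ) ≤ x := by exact_mod_cast h1
  rw [Nat.cast_mul, Nat.cast_sub hp.one_lt.le] at h2
  push_cast at h2
  linarith

theorem sum_fac (p x : ℕ) : ∑ n ∈ Ioc 0 x, n.factorization p = (x !).factorization p := by
  induction x with
  | zero => simp
  | succ x ih =>
    rw [← insert_Ioc_right_eq_Ioc_add_one (Nat.zero_le x), sum_insert (by simp), ih,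
      Nat.factorial_succ, Nat.factorization_mul (Nat.succ_ne_zero x) (Nat.factorial_ne_zero x)]
    simp

theorem log_fac (y : ℕ) : log (y ! : ℕ) = ∑ p ∈ Nat.primesLE y, ((y !).factorization p : ℝ) * log p := by
  rw [log_nat_eq_sum_factorization, Finsupp.sum]
  refine sum_congr ?_ fun _ _ => rfl
  ext p
  rw [Nat.support_factorization, Nat.mem_primeFactors, Nat.mem_primesLE]
  constructor
  · rintro ⟨h1, h2, _⟩
    exact ⟨(Nat.Prime.dvd_factorial h1).1 h2, h1⟩
  · rintro ⟨h1, h2⟩
    exact ⟨h2, (Nat.Prime.dvd_factorial h2).2 h1, Nat.factorial_ne_zero y⟩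

theorem mertens (y : ℕ) (hy : 1 ≤ y) :
    ∑ p ∈ Nat.primesLE y, log p / ((p : ℝ) - 1) ≤ 2 * (log y + log 4) := by
  have hy0 : (0 : ℝ) < y := by exact_mod_cast hy
  have h1 : ∀ p ∈ Nat.primesLE y, (y : ℝ) * (log p / p) ≤
      ((y !).factorization p : ℝ) * log p + log p := by
    intro p hp
    have hpp := Nat.prime_of_mem_primesLE hp
    have hp0 : (0 : ℝ) < p := by exact_mod_cast hpp.pos
    have hl : 0 ≤ log p := log_natCast_nonneg p
    have h2 : (y : ℝ) / p ≤ ((y !).factorization p : ℝ) + 1 := by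
      have h3 : (y : ℝ) / p ≤ ((y / p : ℕ) : ℝ) + 1 := by
        rw [div_le_iff₀ hp0]
        have h4 : y < (y / p + 1) * p := by
          have := Nat.lt_div_mul_add hpp.pos (a := y)
          nlinarith
        have h5 : (y : ℝ) < ((y / p + 1) * p : ℕ) := by exact_mod_cast h4
        push_cast at h5
        push_cast
        linarith
      have h6 : ((y / p : ℕ) : ℝ) ≤ ((y !).factorization p : ℝ) := by
        exact_mod_cast fac_low p y hpp
      linarith
    calc (y : ℝ) * (log p / p) = (y / p) * log p := by ring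
      _ ≤ (((y !).factorization p : ℝ) + 1) * log p := mul_le_mul_of_nonneg_right h2 hl
      _ = _ := by ring
  have h2 : (y : ℝ) * ∑ p ∈ Nat.primesLE y, log p / p ≤ y * log y + y * log 4 := by
    rw [mul_sum]
    refine (sum_le_sum h1).trans ?_
    rw [sum_add_distrib, ← log_fac]
    have h3 : log (y ! : ℕ) ≤ y * log y := by
      have h4 : (y ! : ℕ) ≤ y ^ y := Nat.factorial_le_pow y
      have h5 : ((y ! : ℕ) : ℝ) ≤ (y : ℝ) ^ y := by exact_mod_cast h4
      have h6 := log_le_log (by exact_mod_cast Nat.factorial_pos y) h5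
      rwa [log_pow] at h6
    have h4 : ∑ p ∈ Nat.primesLE y, log p ≤ y * log 4 := by
      rw [← Chebyshev.theta_eq_sum_primesLE_log]
      have := Chebyshev.theta_le_log4_mul_x (x := (y : ℝ)) hy0.le
      linarith
    linarith
  have h3 : ∑ p ∈ Nat.primesLE y, log p / p ≤ log y + log 4 := by
    have h4 : (y : ℝ) * ∑ p ∈ Nat.primesLE y, log p / p ≤ y * (log y + log 4) := by linarith
    exact le_of_mul_le_mul_left h4 hy0
  calc ∑ p ∈ Nat.primesLE y, log p / ((p : ℝ) - 1) ≤ ∑ p ∈ Nat.primesLE y, 2 * (log p / p) := by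
        refine sum_le_sum fun p hp => ?_
        have hpp := Nat.prime_of_mem_primesLE hp
        have hp2 : (2 : ℝ) ≤ p := by exact_mod_cast hpp.two_le
        have hl : 0 ≤ log p := log_natCast_nonneg p
        rw [← mul_div_assoc, div_le_div_iff₀ (by linarith) (by linarith)]
        nlinarith
    _ = 2 * ∑ p ∈ Nat.primesLE y, log p / p := by rw [mul_sum]
    _ ≤ 2 * (log y + log 4) := by linarith

open Classical in
theorem count3 (x y : ℕ) (hy : 1 ≤ y) (U : ℝ) (hU : 1 < U) :
    (((Ioc 0 x).filter (fun n => (∀ p : ℕ, p.Prime → y < p → ¬ p ^ 2 ∣ n) ∧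
      U * ((∏ p ∈ big y n, p : ℕ) : ℝ) < n)).card : ℝ) * log U ≤ 2 * x * (log y + log 4) := by
  set B := (Ioc 0 x).filter (fun n => (∀ p : ℕ, p.Prime → y < p → ¬ p ^ 2 ∣ n) ∧
      U * ((∏ p ∈ big y n, p : ℕ) : ℝ) < n) with hB
  have hterm : ∀ n ∈ B, log U ≤ ∑ p ∈ Nat.primesLE y, (n.factorization p : ℝ) * log p := by
    intro n hn
    rw [hB, mem_filter, mem_Ioc] at hn
    obtain ⟨⟨hn0, hnx⟩, hsq, hlt⟩ := hn
    have hn0' : n ≠ 0 := by omega
    -- the logarithm of n
    have h1 : log n = ∑ p ∈ n.primeFactors, (n.factorization p : ℝ) * log p := by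
      rw [log_nat_eq_sum_factorization, Finsupp.sum, Nat.support_factorization]
    have h2 : ∑ p ∈ n.primeFactors, (n.factorization p : ℝ) * log p =
        (∑ p ∈ n.primeFactors.filter (fun p => y < p), (n.factorization p : ℝ) * log p) +
        ∑ p ∈ n.primeFactors.filter (fun p => ¬ y < p), (n.factorization p : ℝ) * log p :=
      (sum_filter_add_sum_filter_not _ _ _).symm
    have h3 : ∑ p ∈ n.primeFactors.filter (fun p => y < p), (n.factorization p : ℝ) * log p =
        log ((∏ p ∈ big y n, p : ℕ) : ℝ) := by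
      rw [Nat.cast_prod, log_prod]
      · refine sum_congr rfl fun p hp => ?_
        obtain ⟨hp1, hp2⟩ := mem_filter.1 hp
        have hpp := Nat.prime_of_mem_primeFactors hp1
        have h4 : n.factorization p = 1 := by
          have h5 : 0 < n.factorization p :=
            hpp.factorization_pos_of_dvd hn0' (Nat.dvd_of_mem_primeFactors hp1)
          have h6 : ¬ 2 ≤ n.factorization p := by
            intro h
            exact hsq p hpp hp2 ((hpp.pow_dvd_iff_le_factorization hn0').2 h)
          omega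
        rw [h4]
        simp
      · intro p hp
        have hpp := Nat.prime_of_mem_primeFactors (mem_filter.1 hp).1
        exact_mod_cast hpp.ne_zero
    have h4 : ∑ p ∈ n.primeFactors.filter (fun p => ¬ y < p), (n.factorization p : ℝ) * log p ≤
        ∑ p ∈ Nat.primesLE y, (n.factorization p : ℝ) * log p := by
      refine sum_le_sum_of_subset_of_nonneg ?_ ?_
      · intro p hp
        obtain ⟨hp1, hp2⟩ := mem_filter.1 hp
        rw [Nat.mem_primesLE]
        exact ⟨not_lt.1 hp2, Nat.prime_of_mem_primeFactors hp1⟩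
      · intro p _ _
        exact mul_nonneg (Nat.cast_nonneg _) (log_natCast_nonneg p)
    have hprod : (0 : ℝ) < ((∏ p ∈ big y n, p : ℕ) : ℝ) := by
      have : 0 < ∏ p ∈ big y n, p := prod_pos fun p hp =>
        (Nat.prime_of_mem_primeFactors (mem_filter.1 hp).1).pos
      exact_mod_cast this
    have h5 : log U + log ((∏ p ∈ big y n, p : ℕ) : ℝ) ≤ log n := by
      rw [← log_mul (by linarith) hprod.ne']
      exact log_le_log (by positivity) hlt.le
    linarith
  have hsum : ∀ p ∈ Nat.primesLE y, ∑ n ∈ Ioc 0 x, ((n.factorization p : ℝ) * log p) ≤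
      x * (log p / ((p : ℝ) - 1)) := by
    intro p hp
    have hpp := Nat.prime_of_mem_primesLE hp
    have hl : 0 ≤ log p := log_natCast_nonneg p
    rw [← sum_mul]
    have h1 : ∑ n ∈ Ioc 0 x, (n.factorization p : ℝ) = ((x !).factorization p : ℝ) := by
      rw [← sum_fac]
      push_cast
      rfl
    rw [h1]
    calc ((x !).factorization p : ℝ) * log p ≤ x / (p - 1) * log p :=
          mul_le_mul_of_nonneg_right (fac_up p x hpp) hl
      _ = _ := by ring
  calc (B.card : ℝ) * log U = ∑ _n ∈ B, log U := by rw [sum_const, nsmul_eq_mul]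
    _ ≤ ∑ n ∈ B, ∑ p ∈ Nat.primesLE y, (n.factorization p : ℝ) * log p := sum_le_sum hterm
    _ ≤ ∑ n ∈ Ioc 0 x, ∑ p ∈ Nat.primesLE y, (n.factorization p : ℝ) * log p := by
        refine sum_le_sum_of_subset_of_nonneg (filter_subset _ _) ?_
        intro n _ _
        exact sum_nonneg fun p _ => mul_nonneg (Nat.cast_nonneg _) (log_natCast_nonneg p)
    _ = ∑ p ∈ Nat.primesLE y, ∑ n ∈ Ioc 0 x, (n.factorization p : ℝ) * log p := sum_comm
    _ ≤ ∑ p ∈ Nat.primesLE y, x * (log p / ((p : ℝ) - 1)) := sum_le_sum hsum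
    _ = x * ∑ p ∈ Nat.primesLE y, log p / ((p : ℝ) - 1) := by rw [mul_sum]
    _ ≤ x * (2 * (log y + log 4)) := mul_le_mul_of_nonneg_left (mertens y hy) (Nat.cast_nonneg x)
    _ = 2 * x * (log y + log 4) := by ring

end Pool.Agent.TH669.AD
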